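import Mathlib
import Pool.Agent.RSD.Defs
import Pool.Agent.RSD.C.C0

set_option autoImplicit false

/-! # [RSD-D0] inequalities for positive definite data -/

open Real

namespace Pool.Agent.RSD

/-- **[RSD-D0]** consequences of positive definiteness.

Proof. Take `n` from `exists_gram`.  Entries: Cauchy–Schwarz with linear independence, i.e.
`yᵀ G y = ‖∑ y i • n i‖² > 0` for `y ≠ 0`; `y = (-g, 1, 0, 0)` gives `g² < 1`, similarly the others.
`A > 0`: `y = (q13, q23, A, C)` has `G y = (0,0,D,0)`, so `A D = yᵀ G y > 0`; `B > 0`: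
`y = (q14, q24, C, B)`.  `D ≤ A`: the identity
`(1-d²)(A - D) = ((1-d²)a + (bd-g)c + (gd-b)e)² + A (c² + e² - 2cde)` (`ring`, checked) and
`c² + e² - 2cde ≥ 0` since `d² ≤ 1`.  `D ≤ B`: likewise
`(1-c²)(B - D) = ((1-c²)b + (ac-g)d + (gc-a)e)² + B (d² + e² - 2dec)`.
`A ≤ 1 - g²`: `1 - g² - A = b² + d² - 2gbd ≥ 0`. -/
theorem pd_ineq (f : P5) (g : ℝ) (h : f.PD g) :
    g ^ 2 < 1 ∧ f.a ^ 2 < 1 ∧ f.b ^ 2 < 1 ∧ f.c ^ 2 < 1 ∧ f.d ^ 2 < 1 ∧
      f.D g ≤ f.A g ∧ f.D g ≤ f.B g ∧ f.D g ≤ 1 - g ^ 2 ∧ 0 < f.A g ∧ 0 < f.B g := by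
  have hD : 0 < f.D g := h.2.2
  obtain ⟨n, hg, hn⟩ := exists_gram f g h
  have hpos := c0_form_pos f g n hg hn
  have t1 : g ^ 2 < 1 := by
    have := hpos (-g) 1 0 0 (Or.inr (Or.inl one_ne_zero))
    unfold c0_form at this
    nlinarith
  have t2 : f.a ^ 2 < 1 := by
    have := hpos (-f.a) 0 1 0 (Or.inr (Or.inr (Or.inl one_ne_zero)))
    unfold c0_form at this
    nlinarith
  have t3 : f.b ^ 2 < 1 := by
    have := hpos (-f.b) 0 0 1 (Or.inr (Or.inr (Or.inr one_ne_zero)))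
    unfold c0_form at this
    nlinarith
  have t4 : f.c ^ 2 < 1 := by
    have := hpos 0 (-f.c) 1 0 (Or.inr (Or.inr (Or.inl one_ne_zero)))
    unfold c0_form at this
    nlinarith
  have t5 : f.d ^ 2 < 1 := by
    have := hpos 0 (-f.d) 0 1 (Or.inr (Or.inr (Or.inr one_ne_zero)))
    unfold c0_form at this
    nlinarith
  have hA : 0 < f.A g := by
    have hid : c0_form f g (q13 f.a f.b f.c f.d f.e g) (q23 f.a f.b f.c f.d f.e g) (f.A g) (f.C g)
        = f.A g * f.D g := by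
      unfold c0_form
      simp only [P5.A, P5.C, P5.D, qA, qC, qD, q13, q23]
      ring
    by_contra hneg
    have hne : ¬ (q13 f.a f.b f.c f.d f.e g ≠ 0 ∨ q23 f.a f.b f.c f.d f.e g ≠ 0 ∨ f.A g ≠ 0
        ∨ f.C g ≠ 0) := by
      intro hh
      have := hpos _ _ _ _ hh
      rw [hid] at this
      exact hneg ((mul_pos_iff_of_pos_right hD).mp this)
    push Not at hne
    obtain ⟨z1, z2, z3, z4⟩ := hne
    have hid2 : q13 f.a f.b f.c f.d f.e g * f.a + q23 f.a f.b f.c f.d f.e g * f.c + f.A g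
        + f.C g * f.e = f.D g := by
      simp only [P5.A, P5.C, P5.D, qA, qC, qD, q13, q23]
      ring
    rw [z1, z2, z3, z4] at hid2
    linarith
  have hB : 0 < f.B g := by
    have hid : c0_form f g (q14 f.a f.b f.c f.d f.e g) (q24 f.a f.b f.c f.d f.e g) (f.C g) (f.B g)
        = f.B g * f.D g := by
      unfold c0_form
      simp only [P5.B, P5.C, P5.D, qB, qC, qD, q14, q24]
      ring
    by_contra hneg
    have hne : ¬ (q14 f.a f.b f.c f.d f.e g ≠ 0 ∨ q24 f.a f.b f.c f.d f.e g ≠ 0 ∨ f.C g ≠ 0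
        ∨ f.B g ≠ 0) := by
      intro hh
      have := hpos _ _ _ _ hh
      rw [hid] at this
      exact hneg ((mul_pos_iff_of_pos_right hD).mp this)
    push Not at hne
    obtain ⟨z1, z2, z3, z4⟩ := hne
    have hid2 : q14 f.a f.b f.c f.d f.e g * f.b + q24 f.a f.b f.c f.d f.e g * f.d + f.C g * f.e
        + f.B g = f.D g := by
      simp only [P5.B, P5.C, P5.D, qB, qC, qD, q14, q24]
      ring
    rw [z1, z2, z3, z4] at hid2
    linarith
  have hDA : f.D g ≤ f.A g := by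
    have hid : (1 - f.d ^ 2) * (f.A g - f.D g) = ((1 - f.d ^ 2) * f.a + (f.b * f.d - g) * f.c
        + (g * f.d - f.b) * f.e) ^ 2 + f.A g * (f.c ^ 2 + f.e ^ 2 - 2 * f.c * f.e * f.d) := by
      simp only [P5.A, P5.D, qA, qD]
      ring
    have h1 : 0 ≤ f.c ^ 2 + f.e ^ 2 - 2 * f.c * f.e * f.d := by
      nlinarith [sq_nonneg (f.c - f.d * f.e), mul_nonneg (sq_nonneg f.e) (by linarith : 0 ≤ 1 - f.d ^ 2)]
    have h2 : 0 ≤ (1 - f.d ^ 2) * (f.A g - f.D g) := by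
      rw [hid]
      have := mul_nonneg hA.le h1
      positivity
    have h3 : 0 ≤ f.A g - f.D g := nonneg_of_mul_nonneg_right h2 (by linarith)
    linarith
  have hDB : f.D g ≤ f.B g := by
    have hid : (1 - f.c ^ 2) * (f.B g - f.D g) = ((1 - f.c ^ 2) * f.b + (f.a * f.c - g) * f.d
        + (g * f.c - f.a) * f.e) ^ 2 + f.B g * (f.d ^ 2 + f.e ^ 2 - 2 * f.d * f.e * f.c) := by
      simp only [P5.B, P5.D, qB, qD]
      ring
    have h1 : 0 ≤ f.d ^ 2 + f.e ^ 2 - 2 * f.d * f.e * f.c := by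
      nlinarith [sq_nonneg (f.d - f.c * f.e), mul_nonneg (sq_nonneg f.e) (by linarith : 0 ≤ 1 - f.c ^ 2)]
    have h2 : 0 ≤ (1 - f.c ^ 2) * (f.B g - f.D g) := by
      rw [hid]
      have := mul_nonneg hB.le h1
      positivity
    have h3 : 0 ≤ f.B g - f.D g := nonneg_of_mul_nonneg_right h2 (by linarith)
    linarith
  have hAg : f.A g ≤ 1 - g ^ 2 := by
    have hid : 1 - g ^ 2 - f.A g = f.b ^ 2 + f.d ^ 2 - 2 * g * f.b * f.d := by
      simp only [P5.A, qA]; ring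
    have h1 : 0 ≤ f.b ^ 2 + f.d ^ 2 - 2 * g * f.b * f.d := by
      nlinarith [sq_nonneg (f.b - g * f.d), mul_nonneg (sq_nonneg f.d) (by linarith : 0 ≤ 1 - g ^ 2)]
    linarith
  exact ⟨t1, t2, t3, t4, t5, hDA, hDB, le_trans hDA hAg, hA, hB⟩

end Pool.Agent.RSD
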