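import Mathlib
import Pool.Agent.RSD.Defs

set_option autoImplicit false

/-! # [RSD-D1] bounds in a complex disc -/

open Real

namespace Pool.Agent.RSD

/-- complex versions of `A, B, D, N` at `g = - cos z` -/
noncomputable def cA (f : P5) (z : ℂ) : ℂ := qA (f.b : ℂ) f.d (-Complex.cos z)
/-- complex version of `B` -/
noncomputable def cB (f : P5) (z : ℂ) : ℂ := qB (f.a : ℂ) f.c (-Complex.cos z)
/-- complex version of `D` -/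
noncomputable def cD (f : P5) (z : ℂ) : ℂ := qD (f.a : ℂ) f.b f.c f.d f.e (-Complex.cos z)
/-- complex version of `N` -/
noncomputable def cN (f : P5) (z : ℂ) : ℂ := qN (f.a : ℂ) f.b f.c f.d f.e (-Complex.cos z)

/-- the entries are at most one in absolute value -/
def Small (f : P5) : Prop := |f.a| ≤ 1 ∧ |f.b| ≤ 1 ∧ |f.c| ≤ 1 ∧ |f.d| ≤ 1 ∧ |f.e| ≤ 1

theorem d1_sin (w : ℂ) (hw : |w.im| ≤ 1 / 32) : ‖Complex.sin w‖ ≤ 1.01 := by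
  have h1 : Complex.sin w = (Complex.exp (-w * Complex.I) - Complex.exp (w * Complex.I))
      * Complex.I / 2 := rfl
  have h2 : ‖Complex.sin w‖ ≤ (Real.exp w.im + Real.exp (-w.im)) / 2 := by
    rw [h1, norm_div, norm_mul, Complex.norm_I, mul_one]
    have h3 : ‖(2 : ℂ)‖ = 2 := by simp
    rw [h3]
    refine div_le_div_of_nonneg_right ?_ (by norm_num)
    refine le_trans (norm_sub_le _ _) ?_
    rw [Complex.norm_exp, Complex.norm_exp]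
    have h4 : (-w * Complex.I).re = w.im := by simp
    have h5 : (w * Complex.I).re = -w.im := by simp
    rw [h4, h5]
  rw [← Real.cosh_eq] at h2
  have h6 : Real.cosh w.im ≤ Real.exp (w.im ^ 2 / 2) := Real.cosh_le_exp_half_sq _
  have h7 : w.im ^ 2 / 2 ≤ 1 / 2048 := by
    have : w.im ^ 2 ≤ (1 / 32) ^ 2 := by
      rw [← sq_abs]
      exact pow_le_pow_left₀ (abs_nonneg _) hw 2
    linarith
  have h8 : Real.exp (1 / 2048 : ℝ) ≤ 1.01 := by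
    have h9 : Real.exp (-(1 / 2048 : ℝ)) ≥ 1 - 1 / 2048 := by
      have := Real.add_one_le_exp (-(1 / 2048 : ℝ))
      linarith
    have h10 : Real.exp (1 / 2048 : ℝ) = 1 / Real.exp (-(1 / 2048 : ℝ)) := by
      rw [Real.exp_neg]; simp
    rw [h10, div_le_iff₀ (Real.exp_pos _)]
    linarith
  calc ‖Complex.sin w‖ ≤ Real.cosh w.im := h2
    _ ≤ Real.exp (w.im ^ 2 / 2) := h6
    _ ≤ Real.exp (1 / 2048) := Real.exp_le_exp.mpr h7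
    _ ≤ 1.01 := h8

/-- **[RSD-D1a]** `‖cos z - cos θ₀‖ ≤ 1.01 ρ` for `‖z - θ₀‖ ≤ ρ ≤ 1/32`, `θ₀` real; hence
`‖cos z‖ ≤ 1.04`.  (`cos z - cos θ₀ = -2 sin((z+θ₀)/2) sin((z-θ₀)/2)`; or the mean value
inequality with `‖sin w‖ ≤ cosh (Im w) ≤ 1.01` for `|Im w| ≤ 1/32`.) -/
theorem cos_close (θ0 ρ : ℝ) (hρ : ρ ≤ 1 / 32) (z : ℂ) (hz : ‖z - θ0‖ ≤ ρ) :
    ‖Complex.cos z - (Real.cos θ0 : ℂ)‖ ≤ (1.01 : ℝ) * ρ ∧ ‖Complex.cos z‖ ≤ 1.04 := by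
  have hρ0 : 0 ≤ ρ := le_trans (norm_nonneg _) hz
  have hconv : Convex ℝ (Metric.closedBall (θ0 : ℂ) (1 / 32)) := convex_closedBall _ _
  have hd : ∀ w ∈ Metric.closedBall (θ0 : ℂ) (1 / 32),
      HasDerivWithinAt Complex.cos (-Complex.sin w) (Metric.closedBall (θ0 : ℂ) (1 / 32)) w :=
    fun w _ => (Complex.hasDerivAt_cos w).hasDerivWithinAt
  have hb : ∀ w ∈ Metric.closedBall (θ0 : ℂ) (1 / 32), ‖-Complex.sin w‖ ≤ 1.01 := by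
    intro w hw
    rw [norm_neg]
    apply d1_sin
    rw [mem_closedBall_iff_norm] at hw
    have h1 := Complex.abs_im_le_norm (w - θ0)
    simp at h1
    calc |w.im| ≤ ‖w - θ0‖ := h1
      _ ≤ 1 / 32 := hw
  have hx : (θ0 : ℂ) ∈ Metric.closedBall (θ0 : ℂ) (1 / 32) :=
    Metric.mem_closedBall_self (by norm_num)
  have hy : z ∈ Metric.closedBall (θ0 : ℂ) (1 / 32) := by
    rw [mem_closedBall_iff_norm]; exact le_trans hz hρ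
  have hm := hconv.norm_image_sub_le_of_norm_hasDerivWithin_le hd hb hx hy
  have hc : Complex.cos (θ0 : ℂ) = ((Real.cos θ0 : ℝ) : ℂ) := (Complex.ofReal_cos θ0).symm
  rw [hc] at hm
  have h1 : ‖Complex.cos z - (Real.cos θ0 : ℂ)‖ ≤ (1.01 : ℝ) * ρ :=
    le_trans hm (mul_le_mul_of_nonneg_left hz (by norm_num))
  refine ⟨h1, ?_⟩
  have h2 : ‖((Real.cos θ0 : ℝ) : ℂ)‖ ≤ 1 := by
    rw [Complex.norm_real, Real.norm_eq_abs]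
    exact Real.abs_cos_le_one θ0
  calc ‖Complex.cos z‖ = ‖(Complex.cos z - (Real.cos θ0 : ℂ)) + (Real.cos θ0 : ℂ)‖ := by
        rw [sub_add_cancel]
    _ ≤ ‖Complex.cos z - (Real.cos θ0 : ℂ)‖ + ‖((Real.cos θ0 : ℝ) : ℂ)‖ := norm_add_le _ _
    _ ≤ 1.01 * ρ + 1 := add_le_add h1 h2
    _ ≤ 1.04 := by linarith

theorem d1_mul (x y : ℂ) (X Y : ℝ) (hx : ‖x‖ ≤ X) (hy : ‖y‖ ≤ Y) : ‖x * y‖ ≤ X * Y := by
  rw [norm_mul]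
  exact mul_le_mul hx hy (norm_nonneg _) (le_trans (norm_nonneg _) hx)

theorem d1_add (x y : ℂ) (X Y : ℝ) (hx : ‖x‖ ≤ X) (hy : ‖y‖ ≤ Y) : ‖x + y‖ ≤ X + Y :=
  le_trans (norm_add_le _ _) (add_le_add hx hy)

theorem d1_sub (x y : ℂ) (X Y : ℝ) (hx : ‖x‖ ≤ X) (hy : ‖y‖ ≤ Y) : ‖x - y‖ ≤ X + Y :=
  le_trans (norm_sub_le _ _) (add_le_add hx hy)

theorem d1_pow (x : ℂ) (X : ℝ) (hx : ‖x‖ ≤ X) (n : ℕ) : ‖x ^ n‖ ≤ X ^ n := by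
  rw [norm_pow]
  exact pow_le_pow_left₀ (norm_nonneg _) hx n

theorem d1_re (w : ℂ) (r ε : ℝ) (h : ‖w - r‖ ≤ ε) : r - ε ≤ w.re := by
  have h1 := Complex.abs_re_le_norm (w - r)
  simp at h1
  have h2 : |w.re - r| ≤ ε := le_trans h1 h
  rw [abs_le] at h2
  linarith [h2.1]

/-- **[RSD-D1b]** real parts stay `≥ δ/2` on the disc of radius `δ/32`, and `N` is bounded.

Proof. With `g = -cos z`, `g₀ = -cos θ₀`: `A(g) - A(g₀) = (g-g₀)(-(g+g₀)+2bd)`,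
`‖·‖ ≤ 1.01 (δ/32)(2.04 + 2) ≤ δ/2`; same for `B`;
`D(g) - D(g₀) = (g-g₀)(-(1-e²)(g+g₀) + 2(ac+bd-bce-ade))`,
`‖·‖ ≤ 1.01 (δ/32)(2.04 + 8) ≤ δ/2`.  `‖C‖ ≤ 6.2`, `‖A‖,‖B‖ ≤ 6.2`, `‖A'‖,‖B'‖,‖C'‖ ≤ 4.1`, so
`‖N‖ ≤ 6.2·2·6.2·4.1 + 2·6.2²·4.1 ≤ 1000`. -/
theorem disc_bounds (f : P5) (hf : Small f) (θ0 δ : ℝ) (hδ : 0 < δ) (hδ1 : δ ≤ 1)
    (hA : δ ≤ f.A (-Real.cos θ0)) (hB : δ ≤ f.B (-Real.cos θ0)) (hD : δ ≤ f.D (-Real.cos θ0))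
    (z : ℂ) (hz : ‖z - θ0‖ ≤ δ / 32) :
    δ / 2 ≤ (cA f z).re ∧ δ / 2 ≤ (cB f z).re ∧ δ / 2 ≤ (cD f z).re ∧ ‖cN f z‖ ≤ 1000 := by
  obtain ⟨fa, fb, fc, fd, fe⟩ := hf
  obtain ⟨hc1, hc2⟩ := cos_close θ0 (δ / 32) (by linarith) z hz
  have toC : ∀ x : ℝ, |x| ≤ 1 → ‖(x : ℂ)‖ ≤ 1 := by
    intro x hx
    rw [Complex.norm_real, Real.norm_eq_abs]; exact hx
  have ha := toC _ fa
  have hb := toC _ fb
  have hc := toC _ fc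
  have hd := toC _ fd
  have he := toC _ fe
  set g : ℂ := -Complex.cos z with hg
  set g0 : ℂ := ((-Real.cos θ0 : ℝ) : ℂ) with hg0
  have hgg : ‖g - g0‖ ≤ 1.01 * (δ / 32) := by
    have : g - g0 = -(Complex.cos z - (Real.cos θ0 : ℂ)) := by
      rw [hg, hg0]; push_cast; ring
    rw [this, norm_neg]; exact hc1
  have hgn : ‖g‖ ≤ 1.04 := by rw [hg, norm_neg]; exact hc2
  have hg0n : ‖g0‖ ≤ 1 := by
    rw [hg0, Complex.norm_real, Real.norm_eq_abs, abs_neg]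
    exact Real.abs_cos_le_one θ0
  have hsum : ‖g + g0‖ ≤ 2.04 := by
    have := d1_add g g0 _ _ hgn hg0n
    linarith
  have h2 : ‖(2 : ℂ)‖ ≤ 2 := by simp
  have h1 : ‖(1 : ℂ)‖ ≤ 1 := by simp
  refine ⟨?_, ?_, ?_, ?_⟩
  · have hid : cA f z - ((f.A (-Real.cos θ0) : ℝ) : ℂ)
        = (g - g0) * (-(g + g0) + 2 * ((f.b : ℂ) * f.d)) := by
      simp only [cA, P5.A, qA, ← hg, hg0]
      push_cast
      ring
    have hn : ‖cA f z - ((f.A (-Real.cos θ0) : ℝ) : ℂ)‖ ≤ 1.01 * (δ / 32) * (2.04 + 2 * (1 * 1)) := by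
      rw [hid]
      refine d1_mul _ _ _ _ hgg (d1_add _ _ _ _ (by rw [norm_neg]; exact hsum) ?_)
      exact d1_mul _ _ _ _ h2 (d1_mul _ _ _ _ hb hd)
    have := d1_re _ _ _ hn
    linarith
  · have hid : cB f z - ((f.B (-Real.cos θ0) : ℝ) : ℂ)
        = (g - g0) * (-(g + g0) + 2 * ((f.a : ℂ) * f.c)) := by
      simp only [cB, P5.B, qB, ← hg, hg0]
      push_cast
      ring
    have hn : ‖cB f z - ((f.B (-Real.cos θ0) : ℝ) : ℂ)‖ ≤ 1.01 * (δ / 32) * (2.04 + 2 * (1 * 1)) := by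
      rw [hid]
      refine d1_mul _ _ _ _ hgg (d1_add _ _ _ _ (by rw [norm_neg]; exact hsum) ?_)
      exact d1_mul _ _ _ _ h2 (d1_mul _ _ _ _ ha hc)
    have := d1_re _ _ _ hn
    linarith
  · have hid : cD f z - ((f.D (-Real.cos θ0) : ℝ) : ℂ)
        = (g - g0) * (-((((1 - f.e ^ 2 : ℝ)) : ℂ) * (g + g0))
          + 2 * ((f.a : ℂ) * f.c + (f.b : ℂ) * f.d - (f.b : ℂ) * f.c * f.e
            - (f.a : ℂ) * f.d * f.e)) := by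
      simp only [cD, P5.D, qD, ← hg, hg0]
      push_cast
      ring
    have he2 : ‖(((1 - f.e ^ 2 : ℝ)) : ℂ)‖ ≤ 1 := by
      apply toC
      rw [abs_le] at fe ⊢
      constructor <;> nlinarith [fe.1, fe.2]
    have hn : ‖cD f z - ((f.D (-Real.cos θ0) : ℝ) : ℂ)‖
        ≤ 1.01 * (δ / 32) * (1 * 2.04 + 2 * (1 * 1 + 1 * 1 + 1 * 1 * 1 + 1 * 1 * 1)) := by
      rw [hid]
      refine d1_mul _ _ _ _ hgg (d1_add _ _ _ _ (by rw [norm_neg]; exact d1_mul _ _ _ _ he2 hsum) ?_)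
      refine d1_mul _ _ _ _ h2 (d1_sub _ _ _ _ (d1_sub _ _ _ _ (d1_add _ _ _ _ ?_ ?_) ?_) ?_)
      · exact d1_mul _ _ _ _ ha hc
      · exact d1_mul _ _ _ _ hb hd
      · exact d1_mul _ _ _ _ (d1_mul _ _ _ _ hb hc) he
      · exact d1_mul _ _ _ _ (d1_mul _ _ _ _ ha hd) he
    have := d1_re _ _ _ hn
    linarith
  · have hA' : ‖qA (f.b : ℂ) f.d g‖ ≤ 1 + 1.04 ^ 2 + 1 ^ 2 + 1 ^ 2 + 2 * 1.04 * 1 * 1 := by
      unfold qA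
      refine d1_add _ _ _ _ (d1_sub _ _ _ _ (d1_sub _ _ _ _ (d1_sub _ _ _ _ h1
        (d1_pow _ _ hgn 2)) (d1_pow _ _ hb 2)) (d1_pow _ _ hd 2)) ?_
      exact d1_mul _ _ _ _ (d1_mul _ _ _ _ (d1_mul _ _ _ _ h2 hgn) hb) hd
    have hB' : ‖qB (f.a : ℂ) f.c g‖ ≤ 1 + 1.04 ^ 2 + 1 ^ 2 + 1 ^ 2 + 2 * 1.04 * 1 * 1 := by
      unfold qB
      refine d1_add _ _ _ _ (d1_sub _ _ _ _ (d1_sub _ _ _ _ (d1_sub _ _ _ _ h1
        (d1_pow _ _ hgn 2)) (d1_pow _ _ ha 2)) (d1_pow _ _ hc 2)) ?_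
      exact d1_mul _ _ _ _ (d1_mul _ _ _ _ (d1_mul _ _ _ _ h2 hgn) ha) hc
    have hC' : ‖qC (f.a : ℂ) f.b f.c f.d f.e g‖
        ≤ 1 * 1.04 ^ 2 + (1 * 1 + 1 * 1) * 1.04 + (1 * 1 + 1 * 1 + 1) := by
      unfold qC
      refine d1_add _ _ _ _ (d1_sub _ _ _ _ (d1_mul _ _ _ _ he (d1_pow _ _ hgn 2))
        (d1_mul _ _ _ _ (d1_add _ _ _ _ (d1_mul _ _ _ _ hb hc) (d1_mul _ _ _ _ ha hd)) hgn)) ?_
      exact d1_sub _ _ _ _ (d1_add _ _ _ _ (d1_mul _ _ _ _ ha hb) (d1_mul _ _ _ _ hc hd)) he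
    have h2' : ‖(-2 : ℂ)‖ ≤ 2 := by simp
    have hA1 : ‖qA' (f.b : ℂ) f.d g‖ ≤ 2 * 1.04 + 2 * 1 * 1 := by
      unfold qA'
      exact d1_add _ _ _ _ (d1_mul _ _ _ _ h2' hgn) (d1_mul _ _ _ _ (d1_mul _ _ _ _ h2 hb) hd)
    have hB1 : ‖qB' (f.a : ℂ) f.c g‖ ≤ 2 * 1.04 + 2 * 1 * 1 := by
      unfold qB'
      exact d1_add _ _ _ _ (d1_mul _ _ _ _ h2' hgn) (d1_mul _ _ _ _ (d1_mul _ _ _ _ h2 ha) hc)
    have hC1 : ‖qC' (f.a : ℂ) f.b f.c f.d f.e g‖ ≤ 2 * 1 * 1.04 + (1 * 1 + 1 * 1) := by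
      unfold qC'
      exact d1_sub _ _ _ _ (d1_mul _ _ _ _ (d1_mul _ _ _ _ h2 he) hgn)
        (d1_add _ _ _ _ (d1_mul _ _ _ _ hb hc) (d1_mul _ _ _ _ ha hd))
    have hN : ‖cN f z‖ ≤ (1 * 1.04 ^ 2 + (1 * 1 + 1 * 1) * 1.04 + (1 * 1 + 1 * 1 + 1))
        * ((2 * 1.04 + 2 * 1 * 1) * (1 + 1.04 ^ 2 + 1 ^ 2 + 1 ^ 2 + 2 * 1.04 * 1 * 1)
          + (1 + 1.04 ^ 2 + 1 ^ 2 + 1 ^ 2 + 2 * 1.04 * 1 * 1) * (2 * 1.04 + 2 * 1 * 1))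
        + 2 * ((1 + 1.04 ^ 2 + 1 ^ 2 + 1 ^ 2 + 2 * 1.04 * 1 * 1)
          * (1 + 1.04 ^ 2 + 1 ^ 2 + 1 ^ 2 + 2 * 1.04 * 1 * 1))
          * (2 * 1 * 1.04 + (1 * 1 + 1 * 1)) := by
      unfold cN qN
      rw [← hg]
      refine d1_sub _ _ _ _ (d1_mul _ _ _ _ hC' (d1_add _ _ _ _ (d1_mul _ _ _ _ hA1 hB')
        (d1_mul _ _ _ _ hA' hB1))) ?_
      exact d1_mul _ _ _ _ (d1_mul _ _ _ _ h2 (d1_mul _ _ _ _ hA' hB')) hC1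
    refine le_trans hN ?_
    norm_num

/-- **[RSD-D1c]** restriction to the real line. -/
theorem cx_real (f : P5) (θ : ℝ) :
    cA f (θ : ℂ) = (f.A (-Real.cos θ) : ℂ) ∧ cB f (θ : ℂ) = (f.B (-Real.cos θ) : ℂ) ∧
    cD f (θ : ℂ) = (f.D (-Real.cos θ) : ℂ) ∧ cN f (θ : ℂ) = (f.N (-Real.cos θ) : ℂ) := by
  have hc : Complex.cos (θ : ℂ) = ((Real.cos θ : ℝ) : ℂ) := (Complex.ofReal_cos θ).symm
  refine ⟨?_, ?_, ?_, ?_⟩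
  · simp only [cA, P5.A, qA, hc]; push_cast; ring
  · simp only [cB, P5.B, qB, hc]; push_cast; ring
  · simp only [cD, P5.D, qD, hc]; push_cast; ring
  · simp only [cN, P5.N, qN, qA, qB, qC, qA', qB', qC', hc]; push_cast; ring

end Pool.Agent.RSD
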