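import Mathlib
import Pool.Agent.RSD.Defs

set_option autoImplicit false

/-! # [RSD-D5] the numerator does not vanish identically -/

open Polynomial

namespace Pool.Agent.RSD

theorem d5_id {R : Type*} [CommRing R] (a b c d e g : R) :
    (1 - g ^ 2) * qD a b c d e g = qA b d g * qB a c g - qC a b c d e g ^ 2 := by
  unfold qA qB qC qD
  ring

theorem d5_key (c L : ℝ[X]) (hL : L ≠ 0) (hL1 : L.eval 1 = 0) (hc : c.eval 1 ≠ 0)
    (h : c * derivative L = 2 * L * derivative c) : False := by
  obtain ⟨L1, h1, h2⟩ := exists_eq_pow_rootMultiplicity_mul_and_not_dvd L hL 1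
  have hk : 0 < rootMultiplicity 1 L := (rootMultiplicity_pos hL).2 hL1
  obtain ⟨m, hm⟩ := Nat.exists_eq_succ_of_ne_zero hk.ne'
  rw [hm, Nat.succ_eq_add_one] at h1
  have h3 : L1.eval 1 ≠ 0 := fun h4 => h2 (dvd_iff_isRoot.2 h4)
  have h4 : derivative L = (X - C 1) ^ m * (C ((m : ℝ) + 1) * L1 + (X - C 1) * derivative L1) := by
    rw [h1, derivative_mul, derivative_X_sub_C_pow]
    push_cast
    rw [map_add, map_natCast, map_one]

    ring
  have h5 : (X - C (1 : ℝ)) ^ m ≠ 0 := pow_ne_zero _ (X_sub_C_ne_zero 1)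
  have h6 : c * (C ((m : ℝ) + 1) * L1 + (X - C 1) * derivative L1) = 2 * ((X - C 1) * L1) * derivative c := by
    apply mul_left_cancel₀ h5
    have h7 : (X - C (1 : ℝ)) ^ m * (c * (C ((m : ℝ) + 1) * L1 + (X - C 1) * derivative L1)) =
        c * derivative L := by
      rw [h4]
      ring
    rw [h7, h, h1]
    ring
  have h7 := congrArg (eval 1) h6
  simp only [eval_mul, eval_add, eval_sub, eval_X, eval_C, sub_self, zero_mul, mul_zero, add_zero] at h7
  have hm1 : (m : ℝ) + 1 ≠ 0 := by positivity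
  exact (mul_ne_zero hc (mul_ne_zero hm1 h3)) h7

/-- **[RSD-D5]** If `e² < 1`, `b ≠ d`, `a ≠ c` then `f.N` is not identically zero.

Proof. Suppose `N = 0` as a function of `g`, hence as a polynomial.  With `M = AB`,
`L = (1-g²)D = M - C²` (identity), `N = C M' - 2 M C'` and so `C L' - 2 L C' = N = 0`.
`L(1) = 0` and `C(1)² = M(1) = A(1) B(1) = (b-d)²(a-c)² ≠ 0`.  `L ≠ 0` (degree 4, leading
coefficient `1 - e² ≠ 0`).  Let `k ≥ 1` be the multiplicity of the root `1` of `L`: it is `k - 1`
for `C L'` (`Polynomial.derivative_rootMultiplicity_of_root`, `C(1) ≠ 0`) and `≥ k` for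
`2 L C'`, contradiction with `C L' = 2 L C'` (if `C' = 0` then `C L' = 0`, `L' = 0`, impossible
since `L` is a nonconstant polynomial).  Alternative: write `L = (X-1)^k L₁`, `L₁(1) ≠ 0`. -/
theorem N_ne_zero (f : P5) (he : f.e ^ 2 < 1) (hbd : f.b ≠ f.d) (hac : f.a ≠ f.c) :
    ∃ g, f.N g ≠ 0 := by
  by_contra hcon
  push Not at hcon
  have hA : derivative (qA (C f.b) (C f.d) X : ℝ[X]) = qA' (C f.b) (C f.d) X := by
    unfold qA qA'
    simp only [derivative_add, derivative_sub, derivative_mul, derivative_pow, derivative_X, derivative_C,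
      derivative_one, derivative_ofNat, Nat.cast_ofNat, map_ofNat]
    ring
  have hB : derivative (qB (C f.a) (C f.c) X : ℝ[X]) = qB' (C f.a) (C f.c) X := by
    unfold qB qB'
    simp only [derivative_add, derivative_sub, derivative_mul, derivative_pow, derivative_X, derivative_C,
      derivative_one, derivative_ofNat, Nat.cast_ofNat, map_ofNat]
    ring
  have hC : derivative (qC (C f.a) (C f.b) (C f.c) (C f.d) (C f.e) X : ℝ[X]) =
      qC' (C f.a) (C f.b) (C f.c) (C f.d) (C f.e) X := by
    unfold qC qC'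
    simp only [derivative_add, derivative_sub, derivative_mul, derivative_pow, derivative_X, derivative_C,
      derivative_one, derivative_ofNat, Nat.cast_ofNat, map_ofNat]
    ring
  have hN : (qN (C f.a) (C f.b) (C f.c) (C f.d) (C f.e) X : ℝ[X]) = 0 := by
    apply Polynomial.funext
    intro g
    have h1 := hcon g
    unfold P5.N at h1
    rw [eval_zero, ← h1]
    unfold qN qA qB qC qA' qB' qC'
    simp only [eval_add, eval_sub, eval_mul, eval_pow, eval_X, eval_C, eval_one, eval_ofNat, eval_neg]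
  have hid := d5_id (C f.a) (C f.b) (C f.c) (C f.d) (C f.e) (X : ℝ[X])
  apply d5_key (qC (C f.a) (C f.b) (C f.c) (C f.d) (C f.e) X)
    ((1 - X ^ 2) * qD (C f.a) (C f.b) (C f.c) (C f.d) (C f.e) X)
  · intro h0
    have h1 : (1 - X ^ 2 : ℝ[X]) ≠ 0 := by
      intro h2
      have h3 := congrArg (eval 0) h2
      simp at h3
    have h2 : (qD (C f.a) (C f.b) (C f.c) (C f.d) (C f.e) X : ℝ[X]) = 0 :=
      (mul_eq_zero.1 h0).resolve_left h1
    have h3 := congrArg (eval 1) h2
    have h4 := congrArg (eval 0) h2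
    have h5 := congrArg (eval (-1)) h2
    unfold qD at h3 h4 h5
    simp only [eval_add, eval_sub, eval_mul, eval_pow, eval_X, eval_C, eval_one, eval_ofNat, eval_zero] at h3 h4 h5
    nlinarith
  · simp only [eval_mul, eval_sub, eval_one, eval_pow, eval_X]
    norm_num
  · intro h0
    have h1 := congrArg (eval 1) hid
    rw [eval_sub, eval_pow, h0] at h1
    unfold qA qB at h1
    simp only [eval_add, eval_sub, eval_mul, eval_pow, eval_X, eval_C, eval_one, eval_ofNat] at h1
    have h2 : (f.b - f.d) ^ 2 * (f.a - f.c) ^ 2 = 0 := by linear_combination -h1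
    have h3 := sub_ne_zero.2 hbd
    have h4 := sub_ne_zero.2 hac
    exact (mul_ne_zero (pow_ne_zero 2 h3) (pow_ne_zero 2 h4)) h2
  · rw [hid, derivative_sub, derivative_mul, derivative_pow, hA, hB, hC]
    unfold qN at hN
    push_cast
    rw [map_ofNat]
    linear_combination hN

end Pool.Agent.RSD
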