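import Mathlib
import Pool.Agent.RSD.Defs
import Pool.Agent.RSD.D.D5

set_option autoImplicit false

/-! # [RSD-D6] exact vanishing of the numerator -/

open Real

namespace Pool.Agent.RSD

/-- the exceptional five-tuples (in terms of the five fixed Gram entries) -/
def Exc (f : P5) : Prop :=
  (f.e = 0 ∧ f.b * f.c + f.a * f.d = 0 ∧ f.a * f.b + f.c * f.d = 0) ∨
    (f.a = 0 ∧ f.b = 0 ∧ f.c = 0 ∧ f.d = 0)

theorem d6_exc_zero (f : P5) (h : Exc f) (g : ℝ) : f.N g = 0 := by
  rcases h with ⟨h1, h2, h3⟩ | ⟨h1, h2, h3, h4⟩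
  · have hC : qC f.a f.b f.c f.d f.e g = 0 := by
      unfold qC; rw [h2, h3, h1]; ring
    have hC' : qC' f.a f.b f.c f.d f.e g = 0 := by
      unfold qC'; rw [h2, h1]; ring
    unfold P5.N qN
    rw [hC, hC']; ring
  · unfold P5.N qN qA qB qC qA' qB' qC'
    rw [h1, h2, h3, h4]; ring

theorem d6_flip (f : P5) (g : ℝ) :
    (⟨f.a, f.b, -f.c, -f.d, f.e⟩ : P5).N g = -f.N (-g) := by
  unfold P5.N qN qA qB qC qA' qB' qC'
  ring

/-- if `N` vanishes identically the five-tuple is exceptional -/
theorem exc_of_N_zero (f : P5) (he : f.e ^ 2 < 1) (ha : f.a ^ 2 < 1)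
    (h : ∀ g, f.N g = 0) : Exc f := by
  have h1 : f.b = f.d ∨ f.a = f.c := by
    by_contra hcon
    push Not at hcon
    obtain ⟨g, hg⟩ := N_ne_zero f he hcon.1 hcon.2
    exact hg (h g)
  have h2 : f.b = -f.d ∨ f.a = -f.c := by
    by_contra hcon
    push Not at hcon
    obtain ⟨g, hg⟩ := N_ne_zero (⟨f.a, f.b, -f.c, -f.d, f.e⟩ : P5) he hcon.1 hcon.2
    exact hg (by rw [d6_flip, h]; ring)
  obtain ⟨a, b, c, d, e⟩ := f
  simp only at h1 h2 he ha
  by_cases he0 : e = 0
  · left
    have P1 : (a - c) * (b - d) = 0 := by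
      rcases h1 with h1 | h1
      · rw [h1]; ring
      · rw [h1]; ring
    have P2 : (a + c) * (b + d) = 0 := by
      rcases h2 with h2 | h2
      · rw [h2]; ring
      · rw [h2]; ring
    refine ⟨he0, ?_, ?_⟩
    · simp only; linear_combination (1 / 2) * P2 - (1 / 2) * P1
    · simp only; linear_combination (1 / 2) * P2 + (1 / 2) * P1
  · right
    have n1 := h (1 / 2)
    have n2 := h (-(1 / 2))
    unfold P5.N qN qA qB qC qA' qB' qC' at n1 n2
    simp only at n1 n2
    rcases h1 with h1 | h1 <;> rcases h2 with h2 | h2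
    · -- b = d = 0
      have hd : d = 0 := by linarith
      have hb : b = 0 := by linarith
      subst hd
      subst hb
      have q1 : e * (a ^ 2 + c ^ 2 - 5 / 2 * (a * c)) = 0 := by linear_combination (4 / 3) * n1
      have q2 : e * (a ^ 2 + c ^ 2 + 5 / 2 * (a * c)) = 0 := by linear_combination (-4 / 3) * n2
      have r1 := (mul_eq_zero.mp q1).resolve_left he0
      have r2 := (mul_eq_zero.mp q2).resolve_left he0
      have r3 : a ^ 2 + c ^ 2 = 0 := by linarith
      have a0 : a = 0 := (pow_eq_zero_iff (two_ne_zero)).mp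
        (le_antisymm (by linarith [sq_nonneg c]) (sq_nonneg a))
      have c0 : c = 0 := (pow_eq_zero_iff (two_ne_zero)).mp
        (le_antisymm (by linarith [sq_nonneg a]) (sq_nonneg c))
      exact ⟨a0, rfl, c0, rfl⟩
    · -- b = d, a = -c
      have hc : c = -a := by linarith
      subst hc
      subst h1
      have q1 : e * (27 * a ^ 2 - 3 * b ^ 2 - 24 * a ^ 2 * b ^ 2) = 0 := by
        linear_combination 8 * n1
      have q2 : e * (27 * b ^ 2 - 3 * a ^ 2 - 24 * a ^ 2 * b ^ 2) = 0 := by
        linear_combination (-8) * n2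
      have r1 := (mul_eq_zero.mp q1).resolve_left he0
      have r2 := (mul_eq_zero.mp q2).resolve_left he0
      have r3 : b ^ 2 = a ^ 2 := by linarith
      rw [r3] at r1
      have r4 : a ^ 2 * (1 - a ^ 2) = 0 := by linarith
      have r5 : a ^ 2 = 0 := (mul_eq_zero.mp r4).resolve_right (by linarith)
      have a0 : a = 0 := pow_eq_zero_iff (two_ne_zero) |>.mp r5
      have b0 : b = 0 := by
        rw [r5] at r3
        exact pow_eq_zero_iff (two_ne_zero) |>.mp r3
      subst a0
      exact ⟨rfl, b0, neg_zero, b0⟩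
    · -- a = c, b = -d
      have hd : d = -b := by linarith
      subst hd
      subst h1
      have q1 : e * (27 * b ^ 2 - 3 * a ^ 2 - 24 * a ^ 2 * b ^ 2) = 0 := by
        linear_combination 8 * n1
      have q2 : e * (27 * a ^ 2 - 3 * b ^ 2 - 24 * a ^ 2 * b ^ 2) = 0 := by
        linear_combination (-8) * n2
      have r1 := (mul_eq_zero.mp q1).resolve_left he0
      have r2 := (mul_eq_zero.mp q2).resolve_left he0
      have r3 : b ^ 2 = a ^ 2 := by linarith
      rw [r3] at r1
      have r4 : a ^ 2 * (1 - a ^ 2) = 0 := by linarith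
      have r5 : a ^ 2 = 0 := (mul_eq_zero.mp r4).resolve_right (by linarith)
      have a0 : a = 0 := pow_eq_zero_iff (two_ne_zero) |>.mp r5
      have b0 : b = 0 := by
        rw [r5] at r3
        exact pow_eq_zero_iff (two_ne_zero) |>.mp r3
      subst b0
      exact ⟨a0, rfl, a0, neg_zero⟩
    · -- a = c = 0
      have hc : c = 0 := by linarith
      have ha0 : a = 0 := by linarith
      subst hc
      subst ha0
      have q1 : e * (b ^ 2 + d ^ 2 - 5 / 2 * (b * d)) = 0 := by linear_combination (4 / 3) * n1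
      have q2 : e * (b ^ 2 + d ^ 2 + 5 / 2 * (b * d)) = 0 := by linear_combination (-4 / 3) * n2
      have r1 := (mul_eq_zero.mp q1).resolve_left he0
      have r2 := (mul_eq_zero.mp q2).resolve_left he0
      have r3 : b ^ 2 + d ^ 2 = 0 := by linarith
      have b0 : b = 0 := (pow_eq_zero_iff (two_ne_zero)).mp
        (le_antisymm (by linarith [sq_nonneg d]) (sq_nonneg b))
      have d0 : d = 0 := (pow_eq_zero_iff (two_ne_zero)).mp
        (le_antisymm (by linarith [sq_nonneg b]) (sq_nonneg d))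
      exact ⟨rfl, b0, rfl, d0⟩

end Pool.Agent.RSD
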