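import Mathlib
import Pool.Agent.RSD.Defs
import Pool.Agent.RSD.C.C10
import Pool.Agent.RSD.C.C11
import Pool.Agent.RSD.D.D0
import Pool.Agent.RSD.D.D6

set_option autoImplicit false

/-! # [RSD-D7] in the exceptional families the volume is an affine function of the angle -/

open Real

namespace Pool.Agent.RSD

theorem d7_chord (f : P5) (he : f.e ^ 2 < 1) (g1 g g2 : ℝ) (h1 : g1 ≤ g) (h2 : g ≤ g2)
    (hD1 : 0 < f.D g1) (hD2 : 0 < f.D g2) : 0 < f.D g := by
  have hid : f.D g * (g2 - g1) - (g2 - g) * f.D g1 - (g - g1) * f.D g2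
      = (1 - f.e ^ 2) * ((g2 - g1) * ((g2 - g) * (g - g1))) := by
    simp only [P5.D, qD]; ring
  rcases h1.lt_or_eq with h1' | h1'
  · rcases h2.lt_or_eq with h2' | h2'
    · have hpos : 0 < g2 - g1 := by linarith
      have hr : 0 ≤ (1 - f.e ^ 2) * ((g2 - g1) * ((g2 - g) * (g - g1))) := by
        have a1 : 0 < g2 - g := by linarith
        have a2 : 0 < g - g1 := by linarith
        have a3 : 0 < 1 - f.e ^ 2 := by linarith
        positivity
      have hs : 0 < (g2 - g) * f.D g1 + (g - g1) * f.D g2 := by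
        have a1 : 0 < g2 - g := by linarith
        have a2 : 0 < g - g1 := by linarith
        positivity
      have hm : 0 < f.D g * (g2 - g1) := by linarith
      exact (mul_pos_iff_of_pos_right hpos).mp hm
    · rw [h2']; exact hD2
  · rw [← h1']; exact hD1

/-- **[RSD-D7]** if `N` vanishes identically then `θ ↦ Fr(-cos θ)` is affine on the set where the
Gram matrix is positive definite -/
theorem affine_of_N_zero (f : P5) (hN : ∀ g, f.N g = 0) :
    ∃ u v : ℝ, ∀ θ : ℝ, 0 < θ → θ < π → f.PD (-Real.cos θ) → f.Fr (-Real.cos θ) = u + v * θ := by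
  set I : Set ℝ := {θ : ℝ | 0 < θ ∧ θ < π ∧ f.PD (-Real.cos θ)} with hI
  rcases I.eq_empty_or_nonempty with hemp | ⟨θ0, h0⟩
  · refine ⟨0, 0, fun θ h1 h2 h3 => ?_⟩
    have : θ ∈ I := ⟨h1, h2, h3⟩
    rw [hemp] at this
    exact absurd this (Set.notMem_empty θ)
  · have he : f.e ^ 2 < 1 := h0.2.2.1
    have hq : 0 < q22 f.a f.b f.e := h0.2.2.2.1
    have hDc : Continuous (fun θ : ℝ => f.D (-Real.cos θ)) := by
      unfold P5.D qD
      fun_prop
    have hIo : IsOpen I := by
      have : I = (Set.Ioo 0 π) ∩ (fun θ : ℝ => f.D (-Real.cos θ)) ⁻¹' (Set.Ioi 0) := by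
        ext θ
        constructor
        · rintro ⟨a1, a2, a3⟩
          exact ⟨⟨a1, a2⟩, a3.2.2⟩
        · rintro ⟨⟨a1, a2⟩, a3⟩
          exact ⟨a1, a2, he, hq, a3⟩
      rw [this]
      exact isOpen_Ioo.inter (isOpen_Ioi.preimage hDc)
    have hord : I.OrdConnected := by
      refine ⟨?_⟩
      intro x hx y hy z hz
      have hz1 : 0 < z := lt_of_lt_of_le hx.1 hz.1
      have hz2 : z < π := lt_of_le_of_lt hz.2 hy.2.1
      refine ⟨hz1, hz2, he, hq, ?_⟩
      refine d7_chord f he (-Real.cos x) (-Real.cos z) (-Real.cos y) ?_ ?_ hx.2.2.2.2 hy.2.2.2.2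
      · exact neg_le_neg (Real.cos_le_cos_of_nonneg_of_le_pi hx.1.le hz2.le hz.1)
      · exact neg_le_neg (Real.cos_le_cos_of_nonneg_of_le_pi hz1.le hy.2.1.le hz.2)
    have hIc : IsPreconnected I := hord.isPreconnected
    set v : ℝ := f.Fp (-Real.cos θ0) with hv
    have hFp : ∀ θ ∈ I, f.Fp (-Real.cos θ) = v := by
      intro θ hθ
      have hd : ∀ y ∈ I, HasDerivAt (fun t => f.Fp (-Real.cos t)) 0 y := by
        intro y hy
        obtain ⟨_, _, _, _, _, _, _, _, hA, hB⟩ := pd_ineq f _ hy.2.2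
        have h := Fp_hasDerivAt f y hy.1 hy.2.1 hA hB hy.2.2.2.2
        refine h.congr_deriv ?_
        unfold P5.Fpp
        rw [hN, zero_div]
      exact hIo.is_const_of_deriv_eq_zero hIc
        (fun y hy => (hd y hy).differentiableAt.differentiableWithinAt)
        (fun y hy => (hd y hy).deriv) hθ h0
    refine ⟨f.Fr (-Real.cos θ0) - v * θ0, v, fun θ h1 h2 h3 => ?_⟩
    have hθ : θ ∈ I := ⟨h1, h2, h3⟩
    have hd : ∀ y ∈ I, HasDerivAt (fun t => f.Fr (-Real.cos t) - v * t) 0 y := by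
      intro y hy
      have hlin : HasDerivAt (fun t : ℝ => v * t) v y := by
        simpa using (hasDerivAt_id y).const_mul v
      have h := (Fr_hasDerivAt f y hy.1 hy.2.1 hy.2.2).sub hlin
      refine h.congr_deriv ?_
      rw [hFp y hy, sub_self]
    have hc := hIo.is_const_of_deriv_eq_zero hIc
      (fun y hy => (hd y hy).differentiableAt.differentiableWithinAt)
      (fun y hy => (hd y hy).deriv) hθ h0
    have hc' : f.Fr (-Real.cos θ) - v * θ = f.Fr (-Real.cos θ0) - v * θ0 := hc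
    linarith

end Pool.Agent.RSD
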