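import Mathlib
import Pool.Agent.RSD.Defs
import Pool.Agent.RSD.C.C12
import Pool.Agent.RSD.D.D0

set_option autoImplicit false

/-! # [RSD-D8] symmetries of the orthant probability -/

open Real MeasureTheory

namespace Pool.Agent.RSD

/-- fraction of the unit ball in the set `S` -/
noncomputable def mu (S : Set E4) : ℝ :=
  (volume {x : E4 | ‖x‖ ≤ 1 ∧ x ∈ S}).toReal / (volume (Metric.closedBall (0 : E4) 1)).toReal

theorem d8_hyper_null (m : E4) (hm : m ≠ 0) : volume {x : E4 | inner ℝ m x = (0 : ℝ)} = 0 := by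
  have h1 : {x : E4 | inner ℝ m x = (0 : ℝ)} = ((Submodule.span ℝ {m})ᗮ : Submodule ℝ E4) := by
    ext x
    exact (Submodule.mem_orthogonal_singleton_iff_inner_right (𝕜 := ℝ)).symm
  rw [h1]
  refine Measure.addHaar_submodule volume _ ?_
  intro htop
  have h2 : m ∈ (Submodule.span ℝ {m})ᗮ := by rw [htop]; exact Submodule.mem_top
  rw [Submodule.mem_orthogonal_singleton_iff_inner_right (𝕜 := ℝ)] at h2
  exact hm (inner_self_eq_zero.mp h2)

theorem d8_split (S : Set E4) (m : E4) (hm : m ≠ 0) :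
    mu S = mu {x | x ∈ S ∧ 0 ≤ inner ℝ m x} + mu {x | x ∈ S ∧ 0 ≤ inner ℝ (-m) x} := by
  have hfin : ∀ T : Set E4, volume {x : E4 | ‖x‖ ≤ 1 ∧ x ∈ T} ≠ ⊤ := by
    intro T
    refine ne_top_of_le_ne_top (measure_closedBall_lt_top (x := (0 : E4)) (r := 1)).ne
      (measure_mono ?_)
    intro x hx
    rw [mem_closedBall_zero_iff]; exact hx.1
  have hH : MeasurableSet {x : E4 | 0 ≤ inner ℝ m x} :=
    (isClosed_le continuous_const (by fun_prop)).measurableSet
  have h1 := measure_inter_add_diff (μ := volume) {x : E4 | ‖x‖ ≤ 1 ∧ x ∈ S} hH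
  have e1 : {x : E4 | ‖x‖ ≤ 1 ∧ x ∈ S} ∩ {x : E4 | 0 ≤ inner ℝ m x}
      = {x : E4 | ‖x‖ ≤ 1 ∧ x ∈ {x | x ∈ S ∧ 0 ≤ inner ℝ m x}} := by
    ext x
    constructor
    · rintro ⟨⟨a1, a2⟩, a3⟩; exact ⟨a1, a2, a3⟩
    · rintro ⟨a1, a2, a3⟩; exact ⟨⟨a1, a2⟩, a3⟩
  have e2 : volume ({x : E4 | ‖x‖ ≤ 1 ∧ x ∈ S} \ {x : E4 | 0 ≤ inner ℝ m x})
      = volume {x : E4 | ‖x‖ ≤ 1 ∧ x ∈ {x | x ∈ S ∧ 0 ≤ inner ℝ (-m) x}} := by
    apply le_antisymm
    · refine measure_mono ?_
      rintro x ⟨⟨a1, a2⟩, a3⟩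
      refine ⟨a1, a2, ?_⟩
      have a4 : ¬ (0 : ℝ) ≤ inner ℝ m x := a3
      rw [inner_neg_left]
      linarith [not_le.mp a4]
    · have hsub : {x : E4 | ‖x‖ ≤ 1 ∧ x ∈ {x | x ∈ S ∧ 0 ≤ inner ℝ (-m) x}} ⊆
          ({x : E4 | ‖x‖ ≤ 1 ∧ x ∈ S} \ {x : E4 | 0 ≤ inner ℝ m x})
            ∪ {x : E4 | inner ℝ m x = (0 : ℝ)} := by
        rintro x ⟨a1, a2, a3⟩
        rw [inner_neg_left] at a3
        by_cases h0 : inner ℝ m x = (0 : ℝ)
        · exact Or.inr h0
        · left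
          refine ⟨⟨a1, a2⟩, ?_⟩
          intro a4
          have a4' : (0 : ℝ) ≤ inner ℝ m x := a4
          exact h0 (by linarith)
      calc volume {x : E4 | ‖x‖ ≤ 1 ∧ x ∈ {x | x ∈ S ∧ 0 ≤ inner ℝ (-m) x}}
          ≤ volume (({x : E4 | ‖x‖ ≤ 1 ∧ x ∈ S} \ {x : E4 | 0 ≤ inner ℝ m x})
            ∪ {x : E4 | inner ℝ m x = (0 : ℝ)}) := measure_mono hsub
        _ ≤ volume ({x : E4 | ‖x‖ ≤ 1 ∧ x ∈ S} \ {x : E4 | 0 ≤ inner ℝ m x})
            + volume {x : E4 | inner ℝ m x = (0 : ℝ)} := measure_union_le _ _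
        _ = volume ({x : E4 | ‖x‖ ≤ 1 ∧ x ∈ S} \ {x : E4 | 0 ≤ inner ℝ m x}) := by
            rw [d8_hyper_null m hm, add_zero]
  rw [e1, e2] at h1
  unfold mu
  rw [← h1, ENNReal.toReal_add (hfin _) (hfin _), add_div]

/-- replacing one of the four vectors -/
def upd (n : Fin 4 → E4) (i : Fin 4) (m : E4) : Fin 4 → E4 := Function.update n i m

theorem d8_flip (n : Fin 4 → E4) (i : Fin 4) (m : E4) (hm : m ≠ 0) :
    volFrac (upd n i m) + volFrac (upd n i (-m))
      = mu {x | ∀ j, j ≠ i → 0 ≤ inner ℝ (n j) x} := by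
  rw [d8_split _ m hm]
  have hset : ∀ w : E4, {x : E4 | ‖x‖ ≤ 1 ∧ ∀ j : Fin 4, 0 ≤ inner ℝ (upd n i w j) x}
      = {x : E4 | ‖x‖ ≤ 1 ∧ x ∈ {x | x ∈ {x | ∀ j, j ≠ i → 0 ≤ inner ℝ (n j) x}
          ∧ 0 ≤ inner ℝ w x}} := by
    intro w
    ext x
    constructor
    · rintro ⟨a1, a2⟩
      refine ⟨a1, ?_, ?_⟩
      · intro j hj
        have := a2 j
        rwa [upd, Function.update_of_ne hj] at this
      · have := a2 i
        rwa [upd, Function.update_self] at this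
    · rintro ⟨a1, a2, a3⟩
      refine ⟨a1, ?_⟩
      intro j
      by_cases hj : j = i
      · rw [hj, upd, Function.update_self]; exact a3
      · rw [upd, Function.update_of_ne hj]; exact a2 j hj
  unfold volFrac mu
  rw [hset m, hset (-m)]

/-- vectors with a positive definite Gram matrix are independent -/
theorem d8_li (f : P5) (g : ℝ) (n : Fin 4 → E4) (h : IsGram f g n) (hPD : f.PD g) :
    LinearIndependent ℝ n := by
  obtain ⟨n', hg', hn'⟩ := exists_gram f g hPD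
  rw [Fintype.linearIndependent_iff]
  intro y hy
  by_contra hcon
  push Not at hcon
  obtain ⟨i, hi⟩ := hcon
  have h1 := c0_norm_sq f g n h y
  rw [hy, norm_zero] at h1
  have h2 := c0_form_pos f g n' hg' hn' (y 0) (y 1) (y 2) (y 3) (by
    fin_cases i
    · exact Or.inl hi
    · exact Or.inr (Or.inl hi)
    · exact Or.inr (Or.inr (Or.inl hi))
    · exact Or.inr (Or.inr (Or.inr hi)))
  rw [← h1] at h2
  norm_num at h2

/-- a unit vector orthogonal to three given ones -/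
theorem d8_orth (n : Fin 4 → E4) (i : Fin 4) :
    ∃ m : E4, ‖m‖ = 1 ∧ ∀ j, j ≠ i → inner ℝ (n j) m = (0 : ℝ) := by
  classical
  set V : Submodule ℝ E4 := Submodule.span ℝ (Set.range (fun j : {j : Fin 4 // j ≠ i} => n j))
    with hV
  have hcard : Fintype.card {j : Fin 4 // j ≠ i} = 3 := by
    rw [Fintype.card_subtype_compl, Fintype.card_fin]; simp
  have hfin : Module.finrank ℝ V ≤ 3 := by
    have := finrank_range_le_card (R := ℝ) (fun j : {j : Fin 4 // j ≠ i} => n j)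
    rw [hcard] at this
    exact this
  have hne : V ≠ ⊤ := by
    intro htop
    rw [htop, finrank_top, finrank_euclideanSpace_fin] at hfin
    omega
  have hperp : Vᗮ ≠ ⊥ := by
    intro hbot
    exact hne (Submodule.orthogonal_eq_bot_iff.mp hbot)
  obtain ⟨w, hw, hw0⟩ := Submodule.exists_mem_ne_zero_of_ne_bot hperp
  refine ⟨‖w‖⁻¹ • w, ?_, ?_⟩
  · rw [norm_smul, norm_inv, norm_norm, inv_mul_cancel₀ (norm_ne_zero_iff.mpr hw0)]
  · intro j hj
    rw [inner_smul_right]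
    have : inner ℝ (n j) w = (0 : ℝ) :=
      (Submodule.mem_orthogonal V w).mp hw (n j) (Submodule.subset_span ⟨⟨j, hj⟩, rfl⟩)
    rw [this, mul_zero]

/-- flipping the first normal -/
theorem d8_flip1 (a b c d e g : ℝ) (h : (⟨a, b, c, d, e⟩ : P5).PD g) :
    (⟨a, b, c, d, e⟩ : P5).Fr g + (⟨-a, -b, c, d, e⟩ : P5).Fr (-g)
      = 2 * (⟨0, 0, c, d, e⟩ : P5).Fr 0 := by
  obtain ⟨n, hg, hn⟩ := exists_gram _ _ h
  obtain ⟨m, hm1, hm⟩ := d8_orth n 0
  have hm0 : m ≠ 0 := by intro h0; rw [h0, norm_zero] at hm1; norm_num at hm1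
  have hq11 : 0 < q11 c d e := by
    have h1 := h.1
    have h2 := h.2.1
    have h3 := h.2.2
    have hid : q11 c d e * q22 a b e - q12 a b c d e g ^ 2
        = (1 - e ^ 2) * (⟨a, b, c, d, e⟩ : P5).D g := by
      unfold q11 q22 q12 P5.D qD; ring
    simp only at h1 h2
    have h4 : 0 < (1 - e ^ 2) * (⟨a, b, c, d, e⟩ : P5).D g := mul_pos (by linarith) h3
    have h5 : 0 < q11 c d e * q22 a b e := by nlinarith [sq_nonneg (q12 a b c d e g)]
    exact (mul_pos_iff_of_pos_right h2).mp h5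
  have hPD0 : (⟨0, 0, c, d, e⟩ : P5).PD 0 := by
    refine ⟨h.1, ?_, ?_⟩
    · have h1 := h.1
      simp only at h1
      simp only [q22]
      nlinarith
    · have : (⟨0, 0, c, d, e⟩ : P5).D 0 = q11 c d e := by unfold P5.D qD q11; ring
      rw [this]; exact hq11
  have hj : ∀ j : Fin 4, j ≠ 0 → ∀ w : E4, upd n 0 w j = n j := fun j hj w => by
    rw [upd, Function.update_of_ne hj]
  have h00 : ∀ w : E4, upd n 0 w 0 = w := fun w => by rw [upd, Function.update_self]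
  have hself : upd n 0 (n 0) = n := by rw [upd, Function.update_eq_self]
  have g1 : IsGram (⟨-a, -b, c, d, e⟩ : P5) (-g) (upd n 0 (-(n 0))) := by
    constructor
    · intro i
      by_cases hi : i = 0
      · rw [hi, h00, norm_neg]; exact hg.unit 0
      · rw [hj i hi]; exact hg.unit i
    · rw [h00, hj 1 (by decide), inner_neg_left, hg.h01]
    · rw [h00, hj 2 (by decide), inner_neg_left, hg.h02]
    · rw [h00, hj 3 (by decide), inner_neg_left, hg.h03]
    · rw [hj 1 (by decide), hj 2 (by decide)]; exact hg.h12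
    · rw [hj 1 (by decide), hj 3 (by decide)]; exact hg.h13
    · rw [hj 2 (by decide), hj 3 (by decide)]; exact hg.h23
  have gm : ∀ w : E4, ‖w‖ = 1 → (∀ j, j ≠ 0 → inner ℝ (n j) w = (0 : ℝ)) →
      IsGram (⟨0, 0, c, d, e⟩ : P5) 0 (upd n 0 w) := by
    intro w hw hwo
    constructor
    · intro i
      by_cases hi : i = 0
      · rw [hi, h00]; exact hw
      · rw [hj i hi]; exact hg.unit i
    · rw [h00, hj 1 (by decide), real_inner_comm]; exact hwo 1 (by decide)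
    · rw [h00, hj 2 (by decide), real_inner_comm]; exact hwo 2 (by decide)
    · rw [h00, hj 3 (by decide), real_inner_comm]; exact hwo 3 (by decide)
    · rw [hj 1 (by decide), hj 2 (by decide)]; exact hg.h12
    · rw [hj 1 (by decide), hj 3 (by decide)]; exact hg.h13
    · rw [hj 2 (by decide), hj 3 (by decide)]; exact hg.h23
  have hPD1 : (⟨-a, -b, c, d, e⟩ : P5).PD (-g) := by
    refine ⟨h.1, ?_, ?_⟩
    · have h2 := h.2.1
      simp only [q22] at h2 ⊢
      nlinarith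
    · have : (⟨-a, -b, c, d, e⟩ : P5).D (-g) = (⟨a, b, c, d, e⟩ : P5).D g := by
        unfold P5.D qD; ring
      rw [this]; exact h.2.2
  have F1 := d8_flip n 0 (n 0) (hn.ne_zero 0)
  have F2 := d8_flip n 0 m hm0
  rw [hself] at F1
  rw [volFrac_eq_Fr _ _ n hg hn, volFrac_eq_Fr _ _ _ g1 (d8_li _ _ _ g1 hPD1)] at F1
  have gm1 := gm m hm1 hm
  have gm2 := gm (-m) (by rw [norm_neg]; exact hm1) (fun j hj' => by
    rw [inner_neg_right, hm j hj', neg_zero])
  rw [volFrac_eq_Fr _ _ _ gm1 (d8_li _ _ _ gm1 hPD0),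
    volFrac_eq_Fr _ _ _ gm2 (d8_li _ _ _ gm2 hPD0)] at F2
  linarith

/-- permutations of the four normals -/
theorem d8_perm (f f' : P5) (g g' : ℝ) (n : Fin 4 → E4) (σ : Equiv.Perm (Fin 4))
    (hg : IsGram f g n) (hn : LinearIndependent ℝ n) (hg' : IsGram f' g' (n ∘ σ)) :
    f'.Fr g' = f.Fr g := by
  have hn' : LinearIndependent ℝ (n ∘ σ) := hn.comp σ σ.injective
  rw [← volFrac_eq_Fr _ _ _ hg' hn', ← volFrac_eq_Fr _ _ _ hg hn]
  unfold volFrac
  have hset : {x : E4 | ‖x‖ ≤ 1 ∧ ∀ i : Fin 4, 0 ≤ inner ℝ ((n ∘ σ) i) x}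
      = {x : E4 | ‖x‖ ≤ 1 ∧ ∀ i : Fin 4, 0 ≤ inner ℝ (n i) x} := by
    ext x
    refine and_congr_right (fun _ => ?_)
    constructor
    · intro h i
      have := h (σ.symm i)
      simpa using this
    · intro h i
      exact h (σ i)
  rw [hset]

theorem d8_perm12 (a b c d e g : ℝ) (h : (⟨a, b, c, d, e⟩ : P5).PD g) :
    (⟨c, d, a, b, e⟩ : P5).Fr g = (⟨a, b, c, d, e⟩ : P5).Fr g := by
  obtain ⟨n, hg, hn⟩ := exists_gram _ _ h
  have s0 : (Equiv.swap (0 : Fin 4) 1) 0 = 1 := by decide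
  have s1 : (Equiv.swap (0 : Fin 4) 1) 1 = 0 := by decide
  have s2 : (Equiv.swap (0 : Fin 4) 1) 2 = 2 := by decide
  have s3 : (Equiv.swap (0 : Fin 4) 1) 3 = 3 := by decide
  refine d8_perm _ _ _ _ n (Equiv.swap 0 1) hg hn ?_
  constructor
  · intro i; exact hg.unit _
  · simp only [Function.comp, s0, s1]; rw [real_inner_comm]; exact hg.h01
  · simp only [Function.comp, s0, s2]; exact hg.h12
  · simp only [Function.comp, s0, s3]; exact hg.h13
  · simp only [Function.comp, s1, s2]; exact hg.h02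
  · simp only [Function.comp, s1, s3]; exact hg.h03
  · simp only [Function.comp, s2, s3]; exact hg.h23

theorem d8_perm34 (a b c d e g : ℝ) (h : (⟨a, b, c, d, e⟩ : P5).PD g) :
    (⟨b, a, d, c, e⟩ : P5).Fr g = (⟨a, b, c, d, e⟩ : P5).Fr g := by
  obtain ⟨n, hg, hn⟩ := exists_gram _ _ h
  have s0 : (Equiv.swap (2 : Fin 4) 3) 0 = 0 := by decide
  have s1 : (Equiv.swap (2 : Fin 4) 3) 1 = 1 := by decide
  have s2 : (Equiv.swap (2 : Fin 4) 3) 2 = 3 := by decide
  have s3 : (Equiv.swap (2 : Fin 4) 3) 3 = 2 := by decide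
  refine d8_perm _ _ _ _ n (Equiv.swap 2 3) hg hn ?_
  constructor
  · intro i; exact hg.unit _
  · simp only [Function.comp, s0, s1]; exact hg.h01
  · simp only [Function.comp, s0, s2]; exact hg.h03
  · simp only [Function.comp, s0, s3]; exact hg.h02
  · simp only [Function.comp, s1, s2]; exact hg.h13
  · simp only [Function.comp, s1, s3]; exact hg.h12
  · simp only [Function.comp, s2, s3]; rw [real_inner_comm]; exact hg.h23

theorem d8_perm24 (a b c d e g : ℝ) (h : (⟨a, b, c, d, e⟩ : P5).PD g) :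
    (⟨a, g, e, d, c⟩ : P5).Fr b = (⟨a, b, c, d, e⟩ : P5).Fr g := by
  obtain ⟨n, hg, hn⟩ := exists_gram _ _ h
  have s0 : (Equiv.swap (1 : Fin 4) 3) 0 = 0 := by decide
  have s1 : (Equiv.swap (1 : Fin 4) 3) 1 = 3 := by decide
  have s2 : (Equiv.swap (1 : Fin 4) 3) 2 = 2 := by decide
  have s3 : (Equiv.swap (1 : Fin 4) 3) 3 = 1 := by decide
  refine d8_perm _ _ _ _ n (Equiv.swap 1 3) hg hn ?_
  constructor
  · intro i; exact hg.unit _
  · simp only [Function.comp, s0, s1]; exact hg.h03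
  · simp only [Function.comp, s0, s2]; exact hg.h02
  · simp only [Function.comp, s0, s3]; exact hg.h01
  · simp only [Function.comp, s1, s2]; rw [real_inner_comm]; exact hg.h23
  · simp only [Function.comp, s1, s3]; rw [real_inner_comm]; exact hg.h13
  · simp only [Function.comp, s2, s3]; rw [real_inner_comm]; exact hg.h12

theorem d8_perm13 (a b c d e g : ℝ) (h : (⟨a, b, c, d, e⟩ : P5).PD g) :
    (⟨a, e, g, d, b⟩ : P5).Fr c = (⟨a, b, c, d, e⟩ : P5).Fr g := by
  obtain ⟨n, hg, hn⟩ := exists_gram _ _ h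
  have s0 : (Equiv.swap (0 : Fin 4) 2) 0 = 2 := by decide
  have s1 : (Equiv.swap (0 : Fin 4) 2) 1 = 1 := by decide
  have s2 : (Equiv.swap (0 : Fin 4) 2) 2 = 0 := by decide
  have s3 : (Equiv.swap (0 : Fin 4) 2) 3 = 3 := by decide
  refine d8_perm _ _ _ _ n (Equiv.swap 0 2) hg hn ?_
  constructor
  · intro i; exact hg.unit _
  · simp only [Function.comp, s0, s1]; rw [real_inner_comm]; exact hg.h12
  · simp only [Function.comp, s0, s2]; rw [real_inner_comm]; exact hg.h02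
  · simp only [Function.comp, s0, s3]; exact hg.h23
  · simp only [Function.comp, s1, s2]; rw [real_inner_comm]; exact hg.h01
  · simp only [Function.comp, s1, s3]; exact hg.h13
  · simp only [Function.comp, s2, s3]; exact hg.h03

end Pool.Agent.RSD
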