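import Mathlib
import Pool.Agent.RSD.Defs
import Pool.Agent.RSD.D.D7
import Pool.Agent.RSD.D.D8

set_option autoImplicit false

/-! # [RSD-D9] explicit volumes in the exceptional families -/

open Real MeasureTheory

namespace Pool.Agent.RSD

theorem d9_gauss : ∫ x in Set.Ici (0 : ℝ), Real.exp (-(x ^ 2 / 2)) = √(2 * π) / 2 := by
  rw [integral_Ici_eq_integral_Ioi]
  have h := integral_gaussian_Ioi (1 / 2)
  have e : (fun x : ℝ => Real.exp (-(1 / 2) * x ^ 2)) = fun x : ℝ => Real.exp (-(x ^ 2 / 2)) := by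
    funext x; congr 1; ring
  rw [e] at h
  rw [h]
  congr 2
  field_simp

theorem d9_orthant : (⟨0, 0, 0, 0, 0⟩ : P5).Fr 0 = 1 / 16 := by
  have hdens : ∀ w : (ℝ × ℝ) × (ℝ × ℝ), (⟨0, 0, 0, 0, 0⟩ : P5).dens 0 w.2.1 w.2.2 w.1.1 w.1.2
      = (1 / (4 * π ^ 2)) * ((Real.exp (-(w.1.1 ^ 2 / 2)) * Real.exp (-(w.1.2 ^ 2 / 2)))
        * (Real.exp (-(w.2.1 ^ 2 / 2)) * Real.exp (-(w.2.2 ^ 2 / 2)))) := by
    intro w
    have hD : (⟨0, 0, 0, 0, 0⟩ : P5).D 0 = 1 := by unfold P5.D qD; ring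
    have hQ : (⟨0, 0, 0, 0, 0⟩ : P5).Q 0 w.2.1 w.2.2 w.1.1 w.1.2
        = w.2.1 ^ 2 + w.2.2 ^ 2 + w.1.1 ^ 2 + w.1.2 ^ 2 := by
      simp only [P5.Q, P5.A, P5.B, P5.C, qA, qB, qC, q11, q22, q12, q13, q14, q23, q24]; ring
    unfold P5.dens
    rw [hD, hQ, Real.sqrt_one, ← Real.exp_add, ← Real.exp_add, ← Real.exp_add]
    have e : -((w.2.1 ^ 2 + w.2.2 ^ 2 + w.1.1 ^ 2 + w.1.2 ^ 2) / (2 * 1))
        = -(w.1.1 ^ 2 / 2) + -(w.1.2 ^ 2 / 2) + (-(w.2.1 ^ 2 / 2) + -(w.2.2 ^ 2 / 2)) := by ring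
    rw [e]
    ring
  unfold P5.Fr P5.Orth
  rw [setIntegral_congr_fun (by measurability) (fun w _ => hdens w), integral_const_mul]
  rw [Measure.volume_eq_prod, setIntegral_prod_mul
    (fun v : ℝ × ℝ => Real.exp (-(v.1 ^ 2 / 2)) * Real.exp (-(v.2 ^ 2 / 2)))
    (fun v : ℝ × ℝ => Real.exp (-(v.1 ^ 2 / 2)) * Real.exp (-(v.2 ^ 2 / 2)))]
  rw [Measure.volume_eq_prod, setIntegral_prod_mul
    (fun x : ℝ => Real.exp (-(x ^ 2 / 2))) (fun x : ℝ => Real.exp (-(x ^ 2 / 2))), d9_gauss]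
  have h2 : √(2 * π) * √(2 * π) = 2 * π := Real.mul_self_sqrt (by positivity)
  have e : √(2 * π) / 2 * (√(2 * π) / 2) = π / 2 := by
    calc √(2 * π) / 2 * (√(2 * π) / 2) = (√(2 * π) * √(2 * π)) / 4 := by ring
      _ = π / 2 := by rw [h2]; ring
  rw [e]
  field_simp
  norm_num

theorem d9_PD0 (g : ℝ) (hg : g ^ 2 < 1) : (⟨0, 0, 0, 0, 0⟩ : P5).PD g := by
  refine ⟨by norm_num, by unfold q22; norm_num, ?_⟩
  have : (⟨0, 0, 0, 0, 0⟩ : P5).D g = 1 - g ^ 2 := by unfold P5.D qD; ring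
  rw [this]; linarith

theorem d9_cos_sq (θ : ℝ) (h0 : 0 < θ) (hπ : θ < π) : (-Real.cos θ) ^ 2 < 1 := by
  have hs : 0 < Real.sin θ := Real.sin_pos_of_pos_of_lt_pi h0 hπ
  have := Real.sin_sq_add_cos_sq θ
  nlinarith [pow_pos hs 2]

/-- two orthogonal families: `Fr = θ/(8π)` -/
theorem d9_lune (θ : ℝ) (h0 : 0 < θ) (hπ : θ < π) :
    (⟨0, 0, 0, 0, 0⟩ : P5).Fr (-Real.cos θ) = θ / (8 * π) := by
  obtain ⟨u, v, huv⟩ := affine_of_N_zero (⟨0, 0, 0, 0, 0⟩ : P5)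
    (d6_exc_zero _ (Or.inr ⟨rfl, rfl, rfl, rfl⟩))
  have hpi := Real.pi_pos
  -- slope
  have hv : v = 1 / (8 * π) := by
    have hθ := d9_cos_sq (π / 2) (by positivity) (by linarith)
    have h1 := Fr_hasDerivAt (⟨0, 0, 0, 0, 0⟩ : P5) (π / 2) (by positivity) (by linarith)
      (d9_PD0 _ hθ)
    have h2 : HasDerivAt (fun t => (⟨0, 0, 0, 0, 0⟩ : P5).Fr (-Real.cos t)) v (π / 2) := by
      have hlin : HasDerivAt (fun t : ℝ => u + v * t) v (π / 2) := by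
        simpa using ((hasDerivAt_id (π / 2)).const_mul v).const_add u
      refine hlin.congr_of_eventuallyEq ?_
      have hmem : Set.Ioo 0 π ∈ nhds (π / 2) := Ioo_mem_nhds (by positivity) (by linarith)
      filter_upwards [hmem] with t ht
      exact huv t ht.1 ht.2 (d9_PD0 _ (d9_cos_sq t ht.1 ht.2))
    have h3 := h1.unique h2
    rw [← h3]
    unfold P5.Fp
    have hC : (⟨0, 0, 0, 0, 0⟩ : P5).C (-Real.cos (π / 2)) = 0 := by unfold P5.C qC; ring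
    rw [hC, zero_div, Real.arctan_zero]
    field_simp
    ring
  have hu : u = 0 := by
    have h1 := huv (π / 2) (by positivity) (by linarith)
      (d9_PD0 _ (d9_cos_sq (π / 2) (by positivity) (by linarith)))
    rw [Real.cos_pi_div_two, neg_zero, d9_orthant, hv] at h1
    have : 1 / (8 * π) * (π / 2) = 1 / 16 := by field_simp; norm_num
    linarith
  rw [huv θ h0 hπ (d9_PD0 _ (d9_cos_sq θ h0 hπ)), hu, hv]
  ring

/-- the cone over a spherical triangle: `g₁₃ = g₂₃ = g₃₄ = 0` -/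
noncomputable def d9_K (g b d : ℝ) : ℝ := (⟨0, b, 0, d, 0⟩ : P5).Fr g

/-- positive definiteness for the cone -/
def d9_P (g b d : ℝ) : Prop := b ^ 2 < 1 ∧ 0 < 1 - g ^ 2 - b ^ 2 - d ^ 2 + 2 * g * b * d

theorem d9_P_iff (g b d : ℝ) : (⟨0, b, 0, d, 0⟩ : P5).PD g ↔ d9_P g b d := by
  unfold P5.PD d9_P P5.D q22 qD
  constructor
  · rintro ⟨_, h2, h3⟩
    simp only at h2 h3
    exact ⟨by nlinarith, by nlinarith⟩
  · rintro ⟨h2, h3⟩
    simp only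
    exact ⟨by norm_num, by nlinarith, by nlinarith⟩

theorem d9_P_sq (g b d : ℝ) (h : d9_P g b d) : g ^ 2 < 1 ∧ b ^ 2 < 1 ∧ d ^ 2 < 1 := by
  have h' := (d9_P_iff g b d).mpr h
  obtain ⟨h1, _, h3, _, h5, _⟩ := pd_ineq _ _ h'
  exact ⟨h1, h3, h5⟩

theorem d9_P_perm (g b d : ℝ) (h : d9_P g b d) : d9_P g d b ∧ d9_P b g d := by
  obtain ⟨h1, h2, h3⟩ := d9_P_sq g b d h
  exact ⟨⟨h3, by have := h.2; linarith⟩, ⟨h1, by have := h.2; linarith⟩⟩

theorem d9_K_perm (g b d : ℝ) (h : d9_P g b d) : d9_K g d b = d9_K g b d ∧ d9_K b g d = d9_K g b d := by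
  have h' := (d9_P_iff g b d).mpr h
  exact ⟨d8_perm12 0 b 0 d 0 g h', d8_perm24 0 b 0 d 0 g h'⟩

theorem d9_flip (g b d : ℝ) (h : d9_P g b d) :
    d9_K g b d + d9_K (-g) (-b) d = 2 * d9_K 0 0 d := by
  have h' := (d9_P_iff g b d).mpr h
  have := d8_flip1 0 b 0 d 0 g h'
  rw [neg_zero] at this
  exact this

theorem d9_P_neg (g b d : ℝ) (h : d9_P g b d) : d9_P (-g) (-b) d := by
  refine ⟨?_, ?_⟩
  · have := h.1; nlinarith
  · have := h.2; nlinarith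

theorem d9_P_zero (d : ℝ) (hd : d ^ 2 < 1) : d9_P 0 0 d := ⟨by norm_num, by nlinarith⟩

/-- volume of a cone over a spherical triangle -/
theorem d9_cone (θ1 θ2 θ3 : ℝ) (h1 : 0 < θ1) (h1' : θ1 < π) (h2 : 0 < θ2) (h2' : θ2 < π)
    (h3 : 0 < θ3) (h3' : θ3 < π) (h : d9_P (-Real.cos θ1) (-Real.cos θ2) (-Real.cos θ3)) :
    d9_K (-Real.cos θ1) (-Real.cos θ2) (-Real.cos θ3) = (θ1 + θ2 + θ3 - π) / (8 * π) := by
  have hpi := Real.pi_pos
  -- the one-angle values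
  have L : ∀ θ : ℝ, 0 < θ → θ < π → d9_K 0 0 (-Real.cos θ) = θ / (8 * π) := by
    intro θ a1 a2
    have hsq := d9_cos_sq θ a1 a2
    have p0 := d9_P_zero (-Real.cos θ) hsq
    have e1 : d9_K 0 (-Real.cos θ) 0 = d9_K 0 0 (-Real.cos θ) := (d9_K_perm _ _ _ p0).1
    have p1 := (d9_P_perm _ _ _ p0).1
    have e2 : d9_K (-Real.cos θ) 0 0 = d9_K 0 (-Real.cos θ) 0 := (d9_K_perm _ _ _ p1).2
    rw [← e1, ← e2]
    exact d9_lune θ a1 a2
  have L0 : d9_K 0 0 0 = 1 / 16 := d9_orthant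
  have l1 := L θ1 h1 h1'
  have l2 := L θ2 h2 h2'
  have l3 := L θ3 h3 h3'
  generalize -Real.cos θ1 = g at *
  generalize -Real.cos θ2 = b at *
  generalize -Real.cos θ3 = d at *
  obtain ⟨qg, qb, qd⟩ := d9_P_sq g b d h
  -- flips
  have f1 := d9_flip g b d h
  have hp := d9_P_perm g b d h
  have kp := d9_K_perm g b d h
  -- flip of the second normal
  have f2 := d9_flip g d b hp.1
  have hn2 := d9_P_neg g d b hp.1
  have kn2 := (d9_K_perm _ _ _ hn2).1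
  -- kn2 : d9_K (-g) b (-d) = d9_K (-g) (-d) b
  -- flip of the fourth normal
  have hp3 := (d9_P_perm b g d hp.2).1
  have f4 := d9_flip b d g hp3
  have hn4 := d9_P_neg b d g hp3
  have kn4 := (d9_K_perm _ _ _ hn4).1
  have hn4' := (d9_P_perm _ _ _ hn4).1
  have kn4' := (d9_K_perm _ _ _ hn4').2
  have kp3 := (d9_K_perm b g d hp.2).1
  -- the remaining pair
  have hn2' := (d9_P_perm _ _ _ hn2).1
  have f5 := d9_flip (-g) b (-d) hn2'
  rw [neg_neg] at f5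
  -- L(d) + L(-d) = 1/8
  have f6 := d9_flip 0 (-d) 0 (by
    have := d9_P_zero (-d) (by nlinarith)
    exact (d9_P_perm _ _ _ this).1)
  rw [neg_neg, neg_zero] at f6
  have pz1 := d9_P_zero (-d) (by nlinarith)
  have pz2 := d9_P_zero d qd
  have kz1 := (d9_K_perm _ _ _ pz1).1
  have kz2 := (d9_K_perm _ _ _ pz2).1
  rw [L0] at f6
  rw [l3] at f1
  rw [l2] at f2
  rw [l1] at f4
  rw [kz1, kz2, l3] at f6
  -- combine
  have k1 := kp.1
  have k2 := kp.2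
  have e : (θ1 + θ2 + θ3 - π) / (8 * π) = θ1 / (8 * π) + θ2 / (8 * π) + θ3 / (8 * π) - 1 / 8 := by
    field_simp
  rw [e]
  linarith

end Pool.Agent.RSD
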