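import Mathlib
import Pool.Agent.RSD.Defs
import Pool.Agent.RSD.D.D9

set_option autoImplicit false

/-! # [RSD-D10] explicit volumes in all exceptional families -/

open Real MeasureTheory

namespace Pool.Agent.RSD

theorem d10_PD13 (a b c d e g : ℝ) (h : (⟨a, b, c, d, e⟩ : P5).PD g) :
    (⟨a, e, g, d, b⟩ : P5).PD c := by
  obtain ⟨n, hg, hn⟩ := exists_gram _ _ h
  have s0 : (Equiv.swap (0 : Fin 4) 2) 0 = 2 := by decide
  have s1 : (Equiv.swap (0 : Fin 4) 2) 1 = 1 := by decide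
  have s2 : (Equiv.swap (0 : Fin 4) 2) 2 = 0 := by decide
  have s3 : (Equiv.swap (0 : Fin 4) 2) 3 = 3 := by decide
  refine pd_of_gram _ _ (n ∘ (Equiv.swap (0 : Fin 4) 2)) ?_
    (hn.comp _ (Equiv.swap (0 : Fin 4) 2).injective)
  constructor
  · intro i; exact hg.unit _
  · simp only [Function.comp, s0, s1]; rw [real_inner_comm]; exact hg.h12
  · simp only [Function.comp, s0, s2]; rw [real_inner_comm]; exact hg.h02
  · simp only [Function.comp, s0, s3]; exact hg.h23
  · simp only [Function.comp, s1, s2]; rw [real_inner_comm]; exact hg.h01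
  · simp only [Function.comp, s1, s3]; exact hg.h13
  · simp only [Function.comp, s2, s3]; exact hg.h03

theorem d10_PD34 (a b c d e g : ℝ) (h : (⟨a, b, c, d, e⟩ : P5).PD g) :
    (⟨b, a, d, c, e⟩ : P5).PD g := by
  refine ⟨h.1, ?_, ?_⟩
  · have : q22 b a e = q22 a b e := by unfold q22; ring
    simp only
    rw [this]; exact h.2.1
  · have : (⟨b, a, d, c, e⟩ : P5).D g = (⟨a, b, c, d, e⟩ : P5).D g := by unfold P5.D qD; ring
    rw [this]; exact h.2.2

theorem d10_PDneg3 (a b c d e g : ℝ) (h : (⟨a, b, c, d, e⟩ : P5).PD g) :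
    (⟨-a, b, -c, d, -e⟩ : P5).PD g := by
  refine ⟨?_, ?_, ?_⟩
  · have := h.1
    simp only at this ⊢
    rw [neg_sq]; exact this
  · have : q22 (-a) b (-e) = q22 a b e := by unfold q22; ring
    simp only
    rw [this]; exact h.2.1
  · have : (⟨-a, b, -c, d, -e⟩ : P5).D g = (⟨a, b, c, d, e⟩ : P5).D g := by unfold P5.D qD; ring
    rw [this]; exact h.2.2

/-- the cone over the face triangle is positive definite -/
theorem d10_PDcone (a b c d e g : ℝ) (h : (⟨a, b, c, d, e⟩ : P5).PD g) : d9_P g b d := by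
  obtain ⟨_, _, h3, _, _, _, _, _, hA, _⟩ := pd_ineq _ _ h
  refine ⟨h3, ?_⟩
  have : (⟨a, b, c, d, e⟩ : P5).A g = 1 - g ^ 2 - b ^ 2 - d ^ 2 + 2 * g * b * d := rfl
  rw [← this]; exact hA

/-- flipping the third normal -/
theorem d10_flip3 (a b c d e g : ℝ) (h : (⟨a, b, c, d, e⟩ : P5).PD g) :
    (⟨a, b, c, d, e⟩ : P5).Fr g + (⟨-a, b, -c, d, -e⟩ : P5).Fr g
      = 2 * (⟨0, b, 0, d, 0⟩ : P5).Fr g := by
  have h13 := d10_PD13 a b c d e g h
  have hcone := (d9_P_iff g b d).mpr (d10_PDcone a b c d e g h)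
  have e1 := d8_perm13 a b c d e g h
  have e2 := d8_perm13 (-a) b (-c) d (-e) g (d10_PDneg3 a b c d e g h)
  have e3 := d8_perm13 0 b 0 d 0 g hcone
  have e4 := d8_flip1 a e g d b c h13
  rw [← e1, ← e2, ← e3]
  exact e4

/-- the first kind of exceptional family, up to symmetry -/
theorem d10_sym (a b g : ℝ) (h : (⟨a, b, -a, b, 0⟩ : P5).PD g) :
    (⟨a, b, -a, b, 0⟩ : P5).Fr g = d9_K g b b := by
  have h1 := d10_flip3 a b (-a) b 0 g h
  have h2 := d8_perm12 a b (-a) b 0 g h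
  rw [neg_neg, neg_zero] at h1
  rw [h2] at h1
  unfold d9_K
  linarith

/-- orthogonal pairs: `Fr = θ₁₂ θ₃₄/(4π²)` -/
theorem d10_join (θ φ : ℝ) (h0 : 0 < θ) (hπ : θ < π) (k0 : 0 < φ) (kπ : φ < π) :
    (⟨0, 0, 0, 0, -Real.cos φ⟩ : P5).Fr (-Real.cos θ) = θ * φ / (4 * π ^ 2) := by
  have hpi := Real.pi_pos
  have hesq := d9_cos_sq φ k0 kπ
  have hs : 0 < Real.sin φ := Real.sin_pos_of_pos_of_lt_pi k0 kπ
  have hPD : ∀ g : ℝ, g ^ 2 < 1 → (⟨0, 0, 0, 0, -Real.cos φ⟩ : P5).PD g := by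
    intro g hg
    refine ⟨hesq, ?_, ?_⟩
    · simp only [q22]; nlinarith
    · have : (⟨0, 0, 0, 0, -Real.cos φ⟩ : P5).D g = (1 - g ^ 2) * (1 - (-Real.cos φ) ^ 2) := by
        unfold P5.D qD; ring
      rw [this]
      exact mul_pos (by linarith) (by linarith)
  obtain ⟨u, v, huv⟩ := affine_of_N_zero (⟨0, 0, 0, 0, -Real.cos φ⟩ : P5)
    (d6_exc_zero _ (Or.inr ⟨rfl, rfl, rfl, rfl⟩))
  have hθ := d9_cos_sq (π / 2) (by positivity) (by linarith)
  have hv : v = φ / (4 * π ^ 2) := by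
    have h1 := Fr_hasDerivAt (⟨0, 0, 0, 0, -Real.cos φ⟩ : P5) (π / 2) (by positivity) (by linarith)
      (hPD _ hθ)
    have h2 : HasDerivAt (fun t => (⟨0, 0, 0, 0, -Real.cos φ⟩ : P5).Fr (-Real.cos t)) v
        (π / 2) := by
      have hlin : HasDerivAt (fun t : ℝ => u + v * t) v (π / 2) := by
        simpa using ((hasDerivAt_id (π / 2)).const_mul v).const_add u
      refine hlin.congr_of_eventuallyEq ?_
      have hmem : Set.Ioo 0 π ∈ nhds (π / 2) := Ioo_mem_nhds (by positivity) (by linarith)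
      filter_upwards [hmem] with t ht
      exact huv t ht.1 ht.2 (hPD _ (d9_cos_sq t ht.1 ht.2))
    have h3 := h1.unique h2
    rw [← h3]
    unfold P5.Fp
    have hC : (⟨0, 0, 0, 0, -Real.cos φ⟩ : P5).C (-Real.cos (π / 2)) = Real.cos φ := by
      rw [Real.cos_pi_div_two]; unfold P5.C qC; ring
    have hD : (1 - (-Real.cos (π / 2)) ^ 2) * (⟨0, 0, 0, 0, -Real.cos φ⟩ : P5).D (-Real.cos (π / 2))
        = Real.sin φ ^ 2 := by
      rw [Real.cos_pi_div_two, Real.sin_sq]; unfold P5.D qD; ring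
    rw [hC, hD, Real.sqrt_sq hs.le]
    have htan : Real.arctan (Real.cos φ / Real.sin φ) = π / 2 - φ := by
      have h4 : Real.cos φ / Real.sin φ = Real.tan (π / 2 - φ) := by
        rw [Real.tan_eq_sin_div_cos, Real.sin_pi_div_two_sub, Real.cos_pi_div_two_sub]
      rw [h4, Real.arctan_tan (by linarith) (by linarith)]
    rw [htan]
    ring
  have hu : u = 0 := by
    have h1 := huv (π / 2) (by positivity) (by linarith) (hPD _ hθ)
    rw [Real.cos_pi_div_two, neg_zero] at h1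
    have h2 := d8_perm13 0 0 0 0 (-Real.cos φ) 0 (hPD 0 (by norm_num))
    have h3 := d8_perm24 0 (-Real.cos φ) 0 0 0 0 (by
      have := d10_PD13 0 0 0 0 (-Real.cos φ) 0 (hPD 0 (by norm_num))
      exact this)
    have h4 := d9_lune φ k0 kπ
    rw [← h2, ← h3, h4, hv] at h1
    have h5 : φ / (4 * π ^ 2) * (π / 2) = φ / (8 * π) := by field_simp; ring
    rw [h5] at h1
    linarith
  rw [huv θ h0 hπ (hPD _ (d9_cos_sq θ h0 hπ)), hu, hv]
  ring

/-- **[RSD-D10]** explicit volume fractions in the exceptional families -/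
theorem exceptional_value (θ : ℝ) (α : Fin 5 → ℝ) (h0 : 0 < θ) (hπ : θ < π)
    (hα : ∀ i, 0 < α i ∧ α i < π)
    (hPD : (⟨-Real.cos (α 0), -Real.cos (α 1), -Real.cos (α 2), -Real.cos (α 3),
      -Real.cos (α 4)⟩ : P5).PD (-Real.cos θ))
    (hE : Exc (⟨-Real.cos (α 0), -Real.cos (α 1), -Real.cos (α 2), -Real.cos (α 3),
      -Real.cos (α 4)⟩ : P5)) :
    (⟨-Real.cos (α 0), -Real.cos (α 1), -Real.cos (α 2), -Real.cos (α 3),
      -Real.cos (α 4)⟩ : P5).Fr (-Real.cos θ) = (θ + α 1 + α 3 - π) / (8 * π) ∨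
    (⟨-Real.cos (α 0), -Real.cos (α 1), -Real.cos (α 2), -Real.cos (α 3),
      -Real.cos (α 4)⟩ : P5).Fr (-Real.cos θ) = (θ + α 0 + α 2 - π) / (8 * π) ∨
    (⟨-Real.cos (α 0), -Real.cos (α 1), -Real.cos (α 2), -Real.cos (α 3),
      -Real.cos (α 4)⟩ : P5).Fr (-Real.cos θ) = θ * α 4 / (4 * π ^ 2) := by
  have hcone13 := d10_PDcone _ _ _ _ _ _ hPD
  have hPD34 := d10_PD34 _ _ _ _ _ _ hPD
  have hcone02 := d10_PDcone _ _ _ _ _ _ hPD34
  have v13 := d9_cone θ (α 1) (α 3) h0 hπ (hα 1).1 (hα 1).2 (hα 3).1 (hα 3).2 hcone13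
  have v02 := d9_cone θ (α 0) (α 2) h0 hπ (hα 0).1 (hα 0).2 (hα 2).1 (hα 2).2 hcone02
  have p34 := d8_perm34 _ _ _ _ _ _ hPD
  have hj := d10_join θ (α 4) h0 hπ (hα 4).1 (hα 4).2
  generalize -Real.cos (α 0) = a at *
  generalize -Real.cos (α 1) = b at *
  generalize -Real.cos (α 2) = c at *
  generalize -Real.cos (α 3) = d at *
  generalize -Real.cos (α 4) = e at *
  generalize -Real.cos θ = g at *
  rcases hE with ⟨he, h1, h2⟩ | ⟨ha, hb, hc, hd⟩
  · simp only at he h1 h2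
    subst he
    have P1 : (a - c) * (b - d) = 0 := by linear_combination h2 - h1
    have P2 : (a + c) * (b + d) = 0 := by linear_combination h2 + h1
    rcases mul_eq_zero.mp P1 with q1 | q1 <;> rcases mul_eq_zero.mp P2 with q2 | q2
    · -- a = c = 0
      have hc0 : c = 0 := by linarith
      have ha0 : a = 0 := by linarith
      left
      rw [← v13, ha0, hc0]; rfl
    · -- a = c, b = -d
      right; left
      have hca : c = a := by linarith
      have hdb : d = -b := by linarith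
      rw [← p34, ← v02]
      subst hca
      subst hdb
      exact d10_sym b c g hPD34
    · -- b = d, a = -c
      left
      have hdb : d = b := by linarith
      have hca : c = -a := by linarith
      rw [← v13]
      subst hdb
      subst hca
      exact d10_sym a d g hPD
    · -- b = d = 0
      have hd0 : d = 0 := by linarith
      have hb0 : b = 0 := by linarith
      right; left
      rw [← p34, ← v02, hb0, hd0]; rfl
  · simp only at ha hb hc hd
    right; right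
    rw [ha, hb, hc, hd]
    exact hj

end Pool.Agent.RSD
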