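import Mathlib
import Pool.Agent.RSD.Defs
import Pool.Agent.RSD.D.D1

set_option autoImplicit false

/-! # [RSD-D2] power series of `Fpp` -/

open Real

namespace Pool.Agent.RSD

/-- the complex extension of `θ ↦ Fpp(-cos θ)` -/
noncomputable def d2_G (f : P5) (z : ℂ) : ℂ :=
  cN f z / (8 * (π : ℂ) ^ 2 * (cA f z * cB f z) * (cD f z) ^ (((1 / 2 : ℝ)) : ℂ))

theorem d2_diff (f : P5) : Differentiable ℂ (cA f) ∧ Differentiable ℂ (cB f) ∧
    Differentiable ℂ (cD f) ∧ Differentiable ℂ (cN f) := by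
  have hc : Differentiable ℂ (fun z : ℂ => -Complex.cos z) := Complex.differentiable_cos.neg
  refine ⟨?_, ?_, ?_, ?_⟩
  · unfold cA qA; fun_prop
  · unfold cB qB; fun_prop
  · unfold cD qD; fun_prop
  · unfold cN qN qA qB qC qA' qB' qC'; fun_prop

theorem d2_real (f : P5) (θ : ℝ) (hD : 0 ≤ f.D (-Real.cos θ)) :
    d2_G f (θ : ℂ) = ((f.Fpp (-Real.cos θ) : ℝ) : ℂ) := by
  obtain ⟨r1, r2, r3, r4⟩ := cx_real f θ
  unfold d2_G P5.Fpp
  rw [r1, r2, r3, r4, ← Complex.ofReal_cpow hD, ← Real.sqrt_eq_rpow]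
  push_cast
  ring

theorem d2_bound (f : P5) (hf : Small f) (θ0 δ : ℝ) (hδ : 0 < δ) (hδ1 : δ ≤ 1)
    (hA : δ ≤ f.A (-Real.cos θ0)) (hB : δ ≤ f.B (-Real.cos θ0)) (hD : δ ≤ f.D (-Real.cos θ0))
    (z : ℂ) (hz : ‖z - θ0‖ ≤ δ / 32) :
    DifferentiableAt ℂ (d2_G f) z ∧ ‖d2_G f z‖ ≤ 100 / δ ^ 3 := by
  obtain ⟨b1, b2, b3, b4⟩ := disc_bounds f hf θ0 δ hδ hδ1 hA hB hD z hz
  have hδ2 : 0 < δ / 2 := by positivity
  have nA : δ / 2 ≤ ‖cA f z‖ := le_trans b1 (Complex.re_le_norm _)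
  have nB : δ / 2 ≤ ‖cB f z‖ := le_trans b2 (Complex.re_le_norm _)
  have nD : δ / 2 ≤ ‖cD f z‖ := le_trans b3 (Complex.re_le_norm _)
  have hA0 : cA f z ≠ 0 := by
    intro h; rw [h, norm_zero] at nA; linarith
  have hB0 : cB f z ≠ 0 := by
    intro h; rw [h, norm_zero] at nB; linarith
  have hD0 : cD f z ≠ 0 := by
    intro h; rw [h, norm_zero] at nD; linarith
  have hslit : cD f z ∈ Complex.slitPlane := Or.inl (lt_of_lt_of_le hδ2 b3)
  have hpow0 : (cD f z) ^ (((1 / 2 : ℝ)) : ℂ) ≠ 0 := by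
    rw [Complex.cpow_ne_zero_iff]; exact Or.inl hD0
  have hpi : (π : ℂ) ≠ 0 := by exact_mod_cast Real.pi_ne_zero
  have hden : 8 * (π : ℂ) ^ 2 * (cA f z * cB f z) * (cD f z) ^ (((1 / 2 : ℝ)) : ℂ) ≠ 0 := by
    refine mul_ne_zero (mul_ne_zero (mul_ne_zero (by norm_num) (pow_ne_zero 2 hpi))
      (mul_ne_zero hA0 hB0)) hpow0
  obtain ⟨dA, dB, dD, dN⟩ := d2_diff f
  constructor
  · unfold d2_G
    refine (dN z).div ?_ hden
    refine DifferentiableAt.mul (DifferentiableAt.mul (differentiableAt_const _)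
      ((dA z).mul (dB z))) ((dD z).cpow_const hslit)
  · unfold d2_G
    rw [norm_div, norm_mul, norm_mul, norm_mul, norm_mul, norm_pow, Complex.norm_cpow_real,
      Complex.norm_real, Real.norm_eq_abs, abs_of_pos Real.pi_pos, ← Real.sqrt_eq_rpow]
    have h8 : ‖(8 : ℂ)‖ = 8 := by simp
    rw [h8]
    have hs : 0.7 * δ ≤ √‖cD f z‖ := by
      apply Real.le_sqrt_of_sq_le
      nlinarith
    have hpi2 : (9.8 : ℝ) ≤ π ^ 2 := by
      have := Real.pi_gt_d2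
      nlinarith
    have hAB : δ / 2 * (δ / 2) ≤ ‖cA f z‖ * ‖cB f z‖ :=
      mul_le_mul nA nB hδ2.le (norm_nonneg _)
    have hden2 : 13 * δ ^ 3 ≤ 8 * π ^ 2 * (‖cA f z‖ * ‖cB f z‖) * √‖cD f z‖ := by
      calc 13 * δ ^ 3 ≤ 8 * 9.8 * (δ / 2 * (δ / 2)) * (0.7 * δ) := by
            have : 0 < δ ^ 3 := by positivity
            nlinarith
        _ ≤ 8 * π ^ 2 * (‖cA f z‖ * ‖cB f z‖) * √‖cD f z‖ := by
            refine mul_le_mul ?_ hs (by positivity) (by positivity)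
            refine mul_le_mul ?_ hAB (by positivity) (by positivity)
            linarith
    have hδ3 : 0 < 13 * δ ^ 3 := by positivity
    calc ‖cN f z‖ / (8 * π ^ 2 * (‖cA f z‖ * ‖cB f z‖) * √‖cD f z‖)
        ≤ 1000 / (13 * δ ^ 3) := div_le_div₀ (by norm_num) b4 hδ3 hden2
      _ ≤ 100 / δ ^ 3 := by
          rw [div_le_div_iff₀ hδ3 (by positivity)]
          have : 0 < δ ^ 3 := by positivity
          nlinarith

/-- **[RSD-D2]** On `|θ - θ₀| < δ/32` the function `θ ↦ Fpp(-cos θ)` is the sum of a power series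
with coefficients `|c_k| ≤ (100/δ³) (32/δ)^k`.

Proof. `G z = cN z / (8π² (cA z · cB z) · (cD z)^(1/2))` (`Complex.cpow`, base with positive real
part, so in `slitPlane`) is differentiable at every `z` with `‖z - θ₀‖ ≤ δ/32` (there
`Re cD > 0` and `cA, cB ≠ 0`; note that positivity of the real parts is an open condition, or use
`DiffContOnCl`), `‖G z‖ ≤ 1000/(8π² (δ/2)² (δ/2)^{1/2}) ≤ 100/δ³`
(`‖w^{1/2}‖ = ‖w‖^{1/2}`, `‖w‖ ≥ Re w ≥ δ/2`, `δ ≤ 1`, `1000·4·1.4143/(8·9.86) ≤ 72`).  Taylor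
series: `Complex.hasSum_taylorSeries_on_ball`, Cauchy:
`Complex.norm_iteratedDeriv_le_of_forall_mem_sphere_norm_le`.  For real `θ`, `G θ = Fpp(-cos θ)`
(`cx_real`, `Complex.ofReal_cpow`, `Real.sqrt_eq_rpow`); take
`c_k = Re (iteratedDeriv k G θ₀ / k!)` and real parts (`Complex.hasSum_re`; `(θ-θ₀)^k` is real). -/
theorem Fpp_series (f : P5) (hf : Small f) (θ0 δ : ℝ) (hδ : 0 < δ) (hδ1 : δ ≤ 1)
    (hA : δ ≤ f.A (-Real.cos θ0)) (hB : δ ≤ f.B (-Real.cos θ0)) (hD : δ ≤ f.D (-Real.cos θ0)) :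
    ∃ c : ℕ → ℝ, (∀ k, |c k| ≤ 100 / δ ^ 3 / (δ / 32) ^ k) ∧
      ∀ θ : ℝ, |θ - θ0| < δ / 32 → HasSum (fun k => c k * (θ - θ0) ^ k) (f.Fpp (-Real.cos θ)) := by
  have hr : 0 < δ / 32 := by positivity
  have hball : ∀ z ∈ Metric.closedBall (θ0 : ℂ) (δ / 32), ‖z - θ0‖ ≤ δ / 32 := by
    intro z hz
    rwa [mem_closedBall_iff_norm] at hz
  have hdiff : DifferentiableOn ℂ (d2_G f) (Metric.closedBall (θ0 : ℂ) (δ / 32)) := by
    intro z hz
    exact (d2_bound f hf θ0 δ hδ hδ1 hA hB hD z (hball z hz)).1.differentiableWithinAt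
  have hdcl : DiffContOnCl ℂ (d2_G f) (Metric.ball (θ0 : ℂ) (δ / 32)) :=
    hdiff.diffContOnCl_ball (le_refl _)
  have hC : ∀ z ∈ Metric.sphere (θ0 : ℂ) (δ / 32), ‖d2_G f z‖ ≤ 100 / δ ^ 3 := by
    intro z hz
    exact (d2_bound f hf θ0 δ hδ hδ1 hA hB hD z (hball z (Metric.sphere_subset_closedBall hz))).2
  refine ⟨fun k => ((k.factorial : ℂ)⁻¹ * iteratedDeriv k (d2_G f) θ0).re, ?_, ?_⟩
  · intro k
    refine le_trans (Complex.abs_re_le_norm _) ?_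
    rw [norm_mul, norm_inv, Complex.norm_natCast]
    have h1 := Complex.norm_iteratedDeriv_le_of_forall_mem_sphere_norm_le k hr hdcl hC
    have hk : (0 : ℝ) < k.factorial := by exact_mod_cast Nat.factorial_pos k
    calc (k.factorial : ℝ)⁻¹ * ‖iteratedDeriv k (d2_G f) θ0‖
        ≤ (k.factorial : ℝ)⁻¹ * (k.factorial * (100 / δ ^ 3) / (δ / 32) ^ k) :=
          mul_le_mul_of_nonneg_left h1 (by positivity)
      _ = 100 / δ ^ 3 / (δ / 32) ^ k := by field_simp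
  · intro θ hθ
    have hmem : (θ : ℂ) ∈ Metric.ball (θ0 : ℂ) (δ / 32) := by
      rw [mem_ball_iff_norm, ← Complex.ofReal_sub, Complex.norm_real, Real.norm_eq_abs]
      exact hθ
    have hsum := Complex.hasSum_taylorSeries_on_ball
      (hdiff.mono Metric.ball_subset_closedBall) hmem
    have hre := Complex.hasSum_re hsum
    have hDθ : 0 ≤ f.D (-Real.cos θ) := by
      have h1 := (disc_bounds f hf θ0 δ hδ hδ1 hA hB hD (θ : ℂ) (by
        rw [← Complex.ofReal_sub, Complex.norm_real, Real.norm_eq_abs]; exact hθ.le)).2.2.1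
      rw [(cx_real f θ).2.2.1, Complex.ofReal_re] at h1
      linarith
    rw [d2_real f θ hDθ, Complex.ofReal_re] at hre
    refine hre.congr_fun ?_
    intro k
    have e1 : ((k.factorial : ℂ)⁻¹ • ((θ : ℂ) - θ0) ^ k • iteratedDeriv k (d2_G f) θ0)
        = ((((θ - θ0) ^ k : ℝ)) : ℂ) * ((k.factorial : ℂ)⁻¹ * iteratedDeriv k (d2_G f) θ0) := by
      simp only [smul_eq_mul]
      push_cast
      ring
    rw [e1, Complex.re_ofReal_mul]
    ring

end Pool.Agent.RSD
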