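import Mathlib

set_option autoImplicit false

/-! # [RSD-D3] integrating a power series twice -/

namespace Pool.Agent.RSD

/-- **[RSD-D3]** If `F'' = ∑ c_k (x - x₀)^k` on `|x - x₀| < ρ` with `|c_k| ≤ K / ρ^k`, then
`F(x) = F(x₀) + F'(x₀)(x-x₀) + ∑ c_k/((k+1)(k+2)) (x-x₀)^(k+2)` there.

Proof. Let `G(x)` be the right side (coefficients `b`).  It is differentiable term by term on the
open interval (`HasFPowerSeriesOnBall`, or `hasDerivAt_tsum_of_isPreconnected`, with summable
bounds `K (r/ρ)^k` for `|x - x₀| ≤ r < ρ`), `G'' = F''`; so `(F - G)'` is constant on the interval,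
equal to its value `0` at `x₀`, and then `F - G` is constant, equal to `0` at `x₀`
(`is_const_of_deriv_eq_zero`-type on the convex set `Ioo`). -/
theorem double_integral_series (F F1 F2 : ℝ → ℝ) (x0 ρ K : ℝ) (hρ : 0 < ρ) (c : ℕ → ℝ)
    (hc : ∀ k, |c k| ≤ K / ρ ^ k)
    (h1 : ∀ x, |x - x0| < ρ → HasDerivAt F (F1 x) x)
    (h2 : ∀ x, |x - x0| < ρ → HasDerivAt F1 (F2 x) x)
    (h3 : ∀ x, |x - x0| < ρ → HasSum (fun k => c k * (x - x0) ^ k) (F2 x))
    (b : ℕ → ℝ) (hb0 : b 0 = F x0) (hb1 : b 1 = F1 x0)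
    (hb : ∀ k, b (k + 2) = c k / ((k + 1) * (k + 2))) :
    ∀ x, |x - x0| < ρ → HasSum (fun k => b k * (x - x0) ^ k) (F x) := by
  have hK : 0 ≤ K := by
    have := hc 0
    rw [pow_zero, div_one] at this
    exact le_trans (abs_nonneg _) this
  -- first antiderivative
  have hG1 : ∀ x, |x - x0| < ρ →
      Summable (fun k : ℕ => c k / (k + 1) * (x - x0) ^ (k + 1)) ∧
      HasDerivAt (fun y => ∑' k : ℕ, c k / (k + 1) * (y - x0) ^ (k + 1)) (F2 x) x := by
    intro x hx
    obtain ⟨r, hr1, hr2⟩ := exists_between hx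
    have hr0 : 0 < r := lt_of_le_of_lt (abs_nonneg _) hr1
    have hq : r / ρ < 1 := by rw [div_lt_one hρ]; exact hr2
    have hu : Summable (fun k : ℕ => K * (r / ρ) ^ k) :=
      (summable_geometric_of_lt_one (by positivity) hq).mul_left K
    have hxm : x ∈ Metric.ball x0 r := by rw [Metric.mem_ball, Real.dist_eq]; exact hr1
    have h0m : x0 ∈ Metric.ball x0 r := Metric.mem_ball_self hr0
    have hd := hasDerivAt_tsum_of_isPreconnected (𝕜 := ℝ) (F := ℝ) (u := fun k : ℕ => K * (r / ρ) ^ k)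
      (g := fun (k : ℕ) (y : ℝ) => c k / (k + 1) * (y - x0) ^ (k + 1))
      (g' := fun (k : ℕ) (y : ℝ) => c k * (y - x0) ^ k) hu Metric.isOpen_ball
      (convex_ball x0 r).isPreconnected (by
        intro k y _
        have h := (((hasDerivAt_id y).sub_const x0).pow (k + 1)).const_mul (c k / (k + 1))
        refine h.congr_deriv ?_
        have hk : (k : ℝ) + 1 ≠ 0 := by positivity
        simp only [id, Nat.add_sub_cancel]
        push_cast
        field_simp) (by
        intro k y hy
        rw [Metric.mem_ball, Real.dist_eq] at hy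
        rw [Real.norm_eq_abs, abs_mul, abs_pow]
        calc |c k| * |y - x0| ^ k ≤ K / ρ ^ k * r ^ k :=
              mul_le_mul (hc k) (pow_le_pow_left₀ (abs_nonneg _) hy.le k) (by positivity)
                (by positivity)
          _ = K * (r / ρ) ^ k := by rw [div_pow]; ring) h0m (by
        have : (fun k : ℕ => c k / (k + 1) * (x0 - x0) ^ (k + 1)) = fun _ => 0 := by
          funext k; rw [sub_self, zero_pow (Nat.succ_ne_zero k), mul_zero]
        rw [this]; exact summable_zero) hxm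
    rw [(h3 x hx).tsum_eq] at hd
    refine ⟨?_, hd⟩
    refine Summable.of_norm_bounded (g := fun k : ℕ => K * r * (r / ρ) ^ k)
      ((summable_geometric_of_lt_one (by positivity) hq).mul_left (K * r)) ?_
    intro k
    rw [Real.norm_eq_abs, abs_mul, abs_pow, abs_div]
    have hk1 : (1 : ℝ) ≤ |(k : ℝ) + 1| := by
      rw [abs_of_pos (by positivity)]
      have : (0 : ℝ) ≤ k := Nat.cast_nonneg k
      linarith
    have h1 : |c k| / |(k : ℝ) + 1| ≤ K / ρ ^ k := le_trans (div_le_self (abs_nonneg _) hk1) (hc k)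
    calc |c k| / |(k : ℝ) + 1| * |x - x0| ^ (k + 1) ≤ K / ρ ^ k * r ^ (k + 1) :=
          mul_le_mul h1 (pow_le_pow_left₀ (abs_nonneg _) hr1.le _) (by positivity) (by positivity)
      _ = K * r * (r / ρ) ^ k := by rw [div_pow, pow_succ]; ring
  -- second antiderivative
  have hG0 : ∀ x, |x - x0| < ρ →
      Summable (fun k : ℕ => c k / ((k + 1) * (k + 2)) * (x - x0) ^ (k + 2)) ∧
      HasDerivAt (fun y => ∑' k : ℕ, c k / ((k + 1) * (k + 2)) * (y - x0) ^ (k + 2))
        (∑' k : ℕ, c k / (k + 1) * (x - x0) ^ (k + 1)) x := by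
    intro x hx
    obtain ⟨r, hr1, hr2⟩ := exists_between hx
    have hr0 : 0 < r := lt_of_le_of_lt (abs_nonneg _) hr1
    have hq : r / ρ < 1 := by rw [div_lt_one hρ]; exact hr2
    have hu : Summable (fun k : ℕ => K * r * (r / ρ) ^ k) :=
      (summable_geometric_of_lt_one (by positivity) hq).mul_left (K * r)
    have hxm : x ∈ Metric.ball x0 r := by rw [Metric.mem_ball, Real.dist_eq]; exact hr1
    have h0m : x0 ∈ Metric.ball x0 r := Metric.mem_ball_self hr0
    have hd := hasDerivAt_tsum_of_isPreconnected (𝕜 := ℝ) (F := ℝ)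
      (u := fun k : ℕ => K * r * (r / ρ) ^ k)
      (g := fun (k : ℕ) (y : ℝ) => c k / ((k + 1) * (k + 2)) * (y - x0) ^ (k + 2))
      (g' := fun (k : ℕ) (y : ℝ) => c k / (k + 1) * (y - x0) ^ (k + 1)) hu Metric.isOpen_ball
      (convex_ball x0 r).isPreconnected (by
        intro k y _
        have h := (((hasDerivAt_id y).sub_const x0).pow (k + 2)).const_mul
          (c k / ((k + 1) * (k + 2)))
        refine h.congr_deriv ?_
        have hk : (k : ℝ) + 1 ≠ 0 := by positivity
        have hk2 : (k : ℝ) + 2 ≠ 0 := by positivity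
        have e : k + 2 - 1 = k + 1 := rfl
        simp only [id, e]
        push_cast
        field_simp) (by
        intro k y hy
        rw [Metric.mem_ball, Real.dist_eq] at hy
        rw [Real.norm_eq_abs, abs_mul, abs_pow, abs_div]
        have hk1 : (1 : ℝ) ≤ |(k : ℝ) + 1| := by
          rw [abs_of_pos (by positivity)]
          have : (0 : ℝ) ≤ k := Nat.cast_nonneg k
          linarith
        have h1 : |c k| / |(k : ℝ) + 1| ≤ K / ρ ^ k :=
          le_trans (div_le_self (abs_nonneg _) hk1) (hc k)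
        calc |c k| / |(k : ℝ) + 1| * |y - x0| ^ (k + 1) ≤ K / ρ ^ k * r ^ (k + 1) :=
              mul_le_mul h1 (pow_le_pow_left₀ (abs_nonneg _) hy.le _) (by positivity)
                (by positivity)
          _ = K * r * (r / ρ) ^ k := by rw [div_pow, pow_succ]; ring) h0m (by
        have : (fun k : ℕ => c k / ((k + 1) * (k + 2)) * (x0 - x0) ^ (k + 2)) = fun _ => 0 := by
          funext k; rw [sub_self, zero_pow (Nat.succ_ne_zero _), mul_zero]
        rw [this]; exact summable_zero) hxm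
    refine ⟨?_, hd⟩
    refine Summable.of_norm_bounded (g := fun k : ℕ => K * r ^ 2 * (r / ρ) ^ k)
      ((summable_geometric_of_lt_one (by positivity) hq).mul_left (K * r ^ 2)) ?_
    intro k
    rw [Real.norm_eq_abs, abs_mul, abs_pow, abs_div]
    have hk1 : (1 : ℝ) ≤ |((k : ℝ) + 1) * (k + 2)| := by
      rw [abs_of_pos (by positivity)]
      have : (0 : ℝ) ≤ k := Nat.cast_nonneg k
      nlinarith
    have h1 : |c k| / |((k : ℝ) + 1) * (k + 2)| ≤ K / ρ ^ k :=
      le_trans (div_le_self (abs_nonneg _) hk1) (hc k)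
    calc |c k| / |((k : ℝ) + 1) * (k + 2)| * |x - x0| ^ (k + 2) ≤ K / ρ ^ k * r ^ (k + 2) :=
          mul_le_mul h1 (pow_le_pow_left₀ (abs_nonneg _) hr1.le _) (by positivity) (by positivity)
      _ = K * r ^ 2 * (r / ρ) ^ k := by rw [div_pow, pow_add]; ring
  -- comparison
  set I : Set ℝ := Metric.ball x0 ρ with hI
  have hIo : IsOpen I := Metric.isOpen_ball
  have hIc : IsPreconnected I := (convex_ball x0 ρ).isPreconnected
  have hx0I : x0 ∈ I := Metric.mem_ball_self hρ
  have hmem : ∀ x, x ∈ I → |x - x0| < ρ := fun x hx => by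
    rwa [hI, Metric.mem_ball, Real.dist_eq] at hx
  have hz1 : ∑' k : ℕ, c k / (k + 1) * (x0 - x0) ^ (k + 1) = 0 := by
    have : (fun k : ℕ => c k / (k + 1) * (x0 - x0) ^ (k + 1)) = fun _ => 0 := by
      funext k; rw [sub_self, zero_pow (Nat.succ_ne_zero k), mul_zero]
    rw [this, tsum_zero]
  have hz0 : ∑' k : ℕ, c k / ((k + 1) * (k + 2)) * (x0 - x0) ^ (k + 2) = 0 := by
    have : (fun k : ℕ => c k / ((k + 1) * (k + 2)) * (x0 - x0) ^ (k + 2)) = fun _ => 0 := by
      funext k; rw [sub_self, zero_pow (Nat.succ_ne_zero _), mul_zero]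
    rw [this, tsum_zero]
  have hF1 : ∀ x, |x - x0| < ρ →
      F1 x = F1 x0 + ∑' k : ℕ, c k / (k + 1) * (x - x0) ^ (k + 1) := by
    intro x hx
    have hd : ∀ y ∈ I, HasDerivAt (fun y => F1 y - ∑' k : ℕ, c k / (k + 1) * (y - x0) ^ (k + 1)) 0 y := by
      intro y hy
      have h := (h2 y (hmem y hy)).sub (hG1 y (hmem y hy)).2
      rwa [sub_self] at h
    have hconst := hIo.is_const_of_deriv_eq_zero hIc
      (fun y hy => (hd y hy).differentiableAt.differentiableWithinAt)
      (fun y hy => (hd y hy).deriv) (x := x) (y := x0)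
      (by rw [hI, Metric.mem_ball, Real.dist_eq]; exact hx) hx0I
    rw [hz1] at hconst
    linarith
  have hF0 : ∀ x, |x - x0| < ρ →
      F x = F x0 + F1 x0 * (x - x0)
        + ∑' k : ℕ, c k / ((k + 1) * (k + 2)) * (x - x0) ^ (k + 2) := by
    intro x hx
    have hd : ∀ y ∈ I, HasDerivAt (fun y => F y - F1 x0 * (y - x0)
        - ∑' k : ℕ, c k / ((k + 1) * (k + 2)) * (y - x0) ^ (k + 2)) 0 y := by
      intro y hy
      have hlin : HasDerivAt (fun y => F1 x0 * (y - x0)) (F1 x0) y := by
        simpa using ((hasDerivAt_id y).sub_const x0).const_mul (F1 x0)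
      have h := ((h1 y (hmem y hy)).sub hlin).sub (hG0 y (hmem y hy)).2
      refine h.congr_deriv ?_
      rw [hF1 y (hmem y hy)]
      ring
    have hconst := hIo.is_const_of_deriv_eq_zero hIc
      (fun y hy => (hd y hy).differentiableAt.differentiableWithinAt)
      (fun y hy => (hd y hy).deriv) (x := x) (y := x0)
      (by rw [hI, Metric.mem_ball, Real.dist_eq]; exact hx) hx0I
    rw [hz0, sub_self, mul_zero] at hconst
    linarith
  intro x hx
  rw [← hasSum_nat_add_iff' 2]
  have hs := (hG0 x hx).1.hasSum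
  have e1 : F x - ∑ i ∈ Finset.range 2, b i * (x - x0) ^ i
      = ∑' k : ℕ, c k / ((k + 1) * (k + 2)) * (x - x0) ^ (k + 2) := by
    rw [hF0 x hx, Finset.sum_range_succ, Finset.sum_range_one, hb0, hb1, pow_zero, pow_one]
    ring
  rw [e1]
  refine hs.congr_fun ?_
  intro k
  rw [hb k]

end Pool.Agent.RSD
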