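import Mathlib
import Pool.Agent.RSD.Defs
import Pool.Agent.RSD.C.C10
import Pool.Agent.RSD.C.C11
import Pool.Agent.RSD.C.C12
import Pool.Agent.RSD.D.D2
import Pool.Agent.RSD.D.D3

set_option autoImplicit false

/-! # [RSD-D4] local power series of the volume fraction -/

open Real

namespace Pool.Agent.RSD

/-- **[RSD-D4a]** the good disc stays inside the region: if `PD` holds at `-cos θ₀`,
`0 < θ₀ < π`, `D ≥ δ`, then for `|θ - θ₀| ≤ δ/32`: `0 < θ < π`, `PD`, `A, B, D > 0`.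

Proof. `pd_ineq`: `A, B ≥ D ≥ δ`, entries `Small`, `sin² θ₀ = 1 - g₀² ≥ D ≥ δ`, so
`θ₀ ≥ sin θ₀ ≥ √δ ≥ δ > δ/32` and `π - θ₀ ≥ sin θ₀`.  `disc_bounds` with `z = θ` and `cx_real`:
`A, B, D ≥ δ/2` at `-cos θ`; the two other conditions of `PD` do not depend on `θ`. -/
theorem disc_inside (f : P5) (θ0 δ : ℝ) (hδ : 0 < δ) (hδ1 : δ ≤ 1) (h0 : 0 < θ0) (hπ : θ0 < π)
    (h : f.PD (-Real.cos θ0)) (hD : δ ≤ f.D (-Real.cos θ0)) (θ : ℝ) (hθ : |θ - θ0| ≤ δ / 32) :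
    0 < θ ∧ θ < π ∧ f.PD (-Real.cos θ) ∧ 0 < f.A (-Real.cos θ) ∧ 0 < f.B (-Real.cos θ) ∧
      0 < f.D (-Real.cos θ) := by
  obtain ⟨hg, ha, hb, hc, hd, hDA, hDB, hDg, _, _⟩ := pd_ineq f _ h
  have hsm : Small f := by
    refine ⟨?_, ?_, ?_, ?_, ?_⟩
    · exact abs_le_one_iff_mul_self_le_one.mpr (by nlinarith)
    · exact abs_le_one_iff_mul_self_le_one.mpr (by nlinarith)
    · exact abs_le_one_iff_mul_self_le_one.mpr (by nlinarith)
    · exact abs_le_one_iff_mul_self_le_one.mpr (by nlinarith)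
    · exact abs_le_one_iff_mul_self_le_one.mpr (by nlinarith [h.1])
  have hs0 : 0 < Real.sin θ0 := Real.sin_pos_of_pos_of_lt_pi h0 hπ
  have hsin : δ ≤ Real.sin θ0 := by
    have h1 : δ ≤ Real.sin θ0 ^ 2 := by
      rw [Real.sin_sq]
      have : (-Real.cos θ0) ^ 2 = Real.cos θ0 ^ 2 := by ring
      rw [this] at hDg
      linarith
    have h2 : Real.sin θ0 ≤ 1 := Real.sin_le_one _
    nlinarith
  have hl1 : Real.sin θ0 < θ0 := Real.sin_lt h0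
  have hl2 : Real.sin θ0 < π - θ0 := by
    have := Real.sin_lt (show 0 < π - θ0 by linarith)
    rwa [Real.sin_pi_sub] at this
  rw [abs_le] at hθ
  have hz : ‖(θ : ℂ) - θ0‖ ≤ δ / 32 := by
    rw [← Complex.ofReal_sub, Complex.norm_real, Real.norm_eq_abs, abs_le]
    exact hθ
  obtain ⟨b1, b2, b3, _⟩ := disc_bounds f hsm θ0 δ hδ hδ1 (le_trans hD hDA) (le_trans hD hDB) hD
    (θ : ℂ) hz
  obtain ⟨r1, r2, r3, _⟩ := cx_real f θ
  rw [r1, Complex.ofReal_re] at b1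
  rw [r2, Complex.ofReal_re] at b2
  rw [r3, Complex.ofReal_re] at b3
  have hδ2 : 0 < δ / 2 := by positivity
  refine ⟨by linarith [hθ.1], by linarith [hθ.2], ⟨h.1, h.2.1, lt_of_lt_of_le hδ2 b3⟩,
    lt_of_lt_of_le hδ2 b1, lt_of_lt_of_le hδ2 b2, lt_of_lt_of_le hδ2 b3⟩

/-- **[RSD-D4b]** Taylor expansion of the volume fraction with explicit bounds.

Proof. `Fpp_series` (hypotheses from `pd_ineq`), `Fr_hasDerivAt`, `Fp_hasDerivAt` on the disc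
(`disc_inside`), `double_integral_series` with `ρ = δ/32`, `K = 100/δ³`.  Bounds:
`|b 0| ≤ 1` (`Fr_mem`), `|b 1| = |Fp| ≤ π/(4π²) ≤ 1` (`|arctan| < π/2`) `≤ (2/δ)/ρ`;
`|b (k+2)| ≤ (100/δ³) ρ^{-k}/2 = (50 ρ²/δ³) ρ^{-(k+2)} = (50/(1024 δ)) ρ^{-(k+2)}`. -/
theorem Fr_series (f : P5) (θ0 δ : ℝ) (hδ : 0 < δ) (hδ1 : δ ≤ 1) (h0 : 0 < θ0) (hπ : θ0 < π)
    (h : f.PD (-Real.cos θ0)) (hD : δ ≤ f.D (-Real.cos θ0)) :
    ∃ b : ℕ → ℝ, (∀ k, |b k| ≤ 2 / δ / (δ / 32) ^ k) ∧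
      ∀ θ : ℝ, |θ - θ0| < δ / 32 → HasSum (fun k => b k * (θ - θ0) ^ k) (f.Fr (-Real.cos θ)) := by
  obtain ⟨hg, ha, hb, hc, hd, hDA, hDB, hDg, _, _⟩ := pd_ineq f _ h
  have hsm : Small f := by
    refine ⟨?_, ?_, ?_, ?_, ?_⟩
    · exact abs_le_one_iff_mul_self_le_one.mpr (by nlinarith)
    · exact abs_le_one_iff_mul_self_le_one.mpr (by nlinarith)
    · exact abs_le_one_iff_mul_self_le_one.mpr (by nlinarith)
    · exact abs_le_one_iff_mul_self_le_one.mpr (by nlinarith)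
    · exact abs_le_one_iff_mul_self_le_one.mpr (by nlinarith [h.1])
  have hin := disc_inside f θ0 δ hδ hδ1 h0 hπ h hD
  obtain ⟨c, hcb, hcs⟩ := Fpp_series f hsm θ0 δ hδ hδ1 (le_trans hD hDA) (le_trans hD hDB) hD
  set ρ : ℝ := δ / 32 with hρ
  have hρ0 : 0 < ρ := by positivity
  let b : ℕ → ℝ := fun k =>
    match k with
    | 0 => f.Fr (-Real.cos θ0)
    | 1 => f.Fp (-Real.cos θ0)
    | (k + 2) => c k / ((k + 1) * (k + 2))
  have hser := double_integral_series (fun t => f.Fr (-Real.cos t)) (fun t => f.Fp (-Real.cos t))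
    (fun t => f.Fpp (-Real.cos t)) θ0 ρ (100 / δ ^ 3) hρ0 c hcb
    (fun x hx => by
      obtain ⟨q1, q2, q3, _⟩ := hin x hx.le
      exact Fr_hasDerivAt f x q1 q2 q3)
    (fun x hx => by
      obtain ⟨q1, q2, q3, q4, q5, q6⟩ := hin x hx.le
      exact Fp_hasDerivAt f x q1 q2 q4 q5 q6)
    (fun x hx => hcs x hx) b rfl rfl (fun k => rfl)
  refine ⟨b, ?_, hser⟩
  have h2δ : 1 ≤ 2 / δ := by rw [le_div_iff₀ hδ]; linarith
  intro k
  match k with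
  | 0 =>
    obtain ⟨f0, f1⟩ := Fr_mem f _ h
    change |f.Fr (-Real.cos θ0)| ≤ 2 / δ / ρ ^ 0
    rw [pow_zero, div_one, abs_of_nonneg f0]
    linarith
  | 1 =>
    change |f.Fp (-Real.cos θ0)| ≤ 2 / δ / ρ ^ 1
    rw [pow_one]
    have hρ1 : ρ ≤ 1 := by rw [hρ]; linarith
    have hbig : 2 / δ ≤ 2 / δ / ρ := by
      rw [le_div_iff₀ hρ0]
      have : 0 < 2 / δ := by positivity
      nlinarith
    have hFp : |f.Fp (-Real.cos θ0)| ≤ 1 := by
      unfold P5.Fp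
      have hpi := Real.pi_gt_three
      set y := f.C (-Real.cos θ0) / √((1 - (-Real.cos θ0) ^ 2) * f.D (-Real.cos θ0))
      have t1 := Real.arctan_lt_pi_div_two y
      have t2 := Real.neg_pi_div_two_lt_arctan y
      rw [abs_of_nonneg (div_nonneg (by linarith) (by positivity))]
      rw [div_le_one (by positivity)]
      nlinarith
    linarith
  | (k + 2) =>
    change |c k / ((k + 1) * (k + 2))| ≤ 2 / δ / ρ ^ (k + 2)
    have hk1 : (2 : ℝ) ≤ ((k : ℝ) + 1) * (k + 2) := by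
      have : (0 : ℝ) ≤ k := Nat.cast_nonneg k
      nlinarith
    rw [abs_div, abs_of_pos (by linarith : (0 : ℝ) < ((k : ℝ) + 1) * (k + 2))]
    have s1 : |c k| / (((k : ℝ) + 1) * (k + 2)) ≤ (100 / δ ^ 3 / ρ ^ k) / 2 := by
      refine div_le_div₀ (by positivity) (hcb k) (by norm_num) hk1
    refine le_trans s1 ?_
    have e1 : 2 / δ / ρ ^ (k + 2) = (100 / δ ^ 3 / ρ ^ k) / 2 * (δ ^ 2 / (25 * ρ ^ 2)) := by
      rw [pow_add]
      field_simp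
      ring
    have e2 : δ ^ 2 / (25 * ρ ^ 2) = 1024 / 25 := by
      rw [hρ]
      field_simp
      norm_num
    rw [e1, e2]
    have : 0 ≤ (100 / δ ^ 3 / ρ ^ k) / 2 := by positivity
    nlinarith

end Pool.Agent.RSD
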